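import Mathlib
import Pool.Agent.MP_77ae5d_pr.H74.Prod

/-!
Zero-temperature Glauber dynamics on the 4-regular tree: definitions.
The tree is the Cayley graph of the free group on two generators.
-/

namespace Pool.Agent.MP_887f27_pr.H69

open MeasureTheory ProbabilityTheory Set
open scoped ENNReal

/-- Vertices. -/
abbrev V := FreeGroup (Fin 2)
/-- The four directions at a vertex. -/
abbrev Dir := Fin 2 × Bool
/-- Spin configurations; `true` is the spin `+1`. -/
abbrev Cfg := V → Bool

instance : Countable V := FreeGroup.toWord_injective.countable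

/-- The generator in direction `d`; the neighbours of `v` are the `v * g d`. -/
def g (d : Dir) : V := FreeGroup.mk [d]
/-- The opposite direction. -/
def rev (d : Dir) : Dir := (d.1, !d.2)
/-- Distance to the root. -/
def nrm (v : V) : ℕ := FreeGroup.norm v

/-- At least three of the four directions satisfy `P`. -/
def Three (P : Dir → Prop) : Prop := ∃ a b c, a ≠ b ∧ a ≠ c ∧ b ≠ c ∧ P a ∧ P b ∧ P c
/-- At least two of the three directions other than `rev d` satisfy `P`. -/
def Two (d : Dir) (P : Dir → Prop) : Prop := ∃ a b, a ≠ b ∧ a ≠ rev d ∧ b ≠ rev d ∧ P a ∧ P b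

/-- Message of depth `j` from the set `K` along the directed edge `(v, d)`, whose head is
`v * g d`. -/
def Fw (K : Set V) : ℕ → V → Dir → Prop
  | 0, v, d => v * g d ∈ K
  | j + 1, v, d => v * g d ∈ K ∨ Two d (Fw K j (v * g d))

/-- Rounds of the pruning towards the 3-core of `K`. -/
def Core (K : Set V) : ℕ → Set V
  | 0 => K
  | j + 1 => {u | u ∈ Core K j ∧ Three fun d => u * g d ∈ Core K j}

/-- Defect: a vertex outside `K` that receives three messages from `K`. -/
def Dfc (K : Set V) (j : ℕ) (u : V) : Prop := u ∉ K ∧ Three (Fw K j u)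

/-- Vertices with spin `s`. -/
def sgn (s : Bool) (x : Cfg) : Set V := {v | x v = s}

/-- A non-backtracking path with `l` vertices in `U` that starts along the edge `(v, d)`. -/
def Path (U : Set V) : ℕ → V → Dir → Prop
  | 0, _, _ => True
  | l + 1, v, d => v * g d ∈ U ∧ ∃ d', d' ≠ rev d ∧ Path U l (v * g d) d'

/-- Arbitrarily long paths in `U` along the edge `(v, d)`. -/
def Ray (U : Set V) (v : V) (d : Dir) : Prop := ∀ l, Path U l v d

/-- `Desc r e e'`: the directed edge `e'` is reached from `e` in at most `r` forward steps. -/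
inductive Desc : ℕ → V × Dir → V × Dir → Prop
  | refl (r : ℕ) (e : V × Dir) : Desc r e e
  | step {r : ℕ} {v : V} {d d' : Dir} {e : V × Dir} :
      d' ≠ rev d → Desc r (v * g d, d') e → Desc (r + 1) (v, d) e

/-- If `y` is in `K` then three neighbours are. -/
def Deg (K : Set V) (y : V) : Prop := y ∈ K → Three fun d => y * g d ∈ K

/-- Closure property of `K` for the finite set `Y`. -/
def Clos (K : Set V) (Y : Finset V) : Prop :=
  (∀ w ∈ Y, Three fun d => w * g d ∈ Y ∨ w * g d ∈ K) → ∀ w ∈ Y, w ∈ K

/-- Cardinality in `ℝ≥0∞`. -/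
noncomputable def sz (U : Set V) : ℝ≥0∞ := ∑' y, U.indicator 1 y

/-- Shift of a field. -/
def sh {α : Type} (u : V) (x : V → α) : V → α := fun v => x (u * v)

/-- Bernoulli measure with parameter `q` clamped to `[0, 1]`. -/
noncomputable def ber (q : ℝ) : Measure Bool :=
  ENNReal.ofReal (max 0 (min q 1)) • Measure.dirac true +
    ENNReal.ofReal (1 - max 0 (min q 1)) • Measure.dirac false

instance (q : ℝ) : IsProbabilityMeasure (ber q) := by
  constructor
  have h0 : 0 ≤ max 0 (min q 1) := le_max_left _ _
  have h1 : max 0 (min q 1) ≤ 1 := max_le zero_le_one (min_le_right _ _)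
  simp only [ber, Measure.add_apply, Measure.smul_apply, measure_univ, smul_eq_mul, mul_one]
  rw [← ENNReal.ofReal_add h0 (by linarith)]
  simp

/-- Product Bernoulli measure on configurations. -/
noncomputable def nu (q : ℝ) : Measure Cfg := Measure.infinitePi fun _ => ber q

instance (q : ℝ) : IsProbabilityMeasure (nu q) := by unfold nu; infer_instance

/-- The uniform measure on configurations. -/
noncomputable abbrev pi0 : Measure Cfg := nu (1 / 2)

/-- An event that depends on finitely many coordinates. -/
def Loc (A : Set Cfg) : Prop := ∃ H : Finset V, MP_77ae5d_pr.H74.Dep A (H : Set V)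

/-- Vertices for which the label `h` is pivotal. -/
def F (K : Cfg → Set V) (h : V) (b : Cfg) : Set V :=
  K (Function.update b h false) \ K (Function.update b h true)

/-- Trifurcation of the pivotal set of the label `h` near `y`. -/
def Trif (K : Cfg → Set V) (h y : V) (k r l : ℕ) : Prop :=
  Three fun d => ∃ e, Desc r (y, d) e ∧ ((k : ℝ≥0∞) + 1)⁻¹ ≤ pi0 {b | Path (F K h b) l e.1 e.2}

/-- Shift invariance of a law on configurations. -/
def Inv (lam : Measure Cfg) : Prop := ∀ u : V, MeasurePreserving (sh u) lam lam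

/-- Expected number of neighbours that disagree with the root. -/
noncomputable def bd (lam : Measure Cfg) : ℝ := ∑ d : Dir, lam.real {x | x (g d) ≠ x 1}

/-- Edge expansion for all local events. -/
def Expanding (lam : Measure Cfg) : Prop :=
  ∀ A : Set Cfg, Loc A →
    1 / 2 * (lam.real A * (1 - lam.real A)) ≤ ∑ d : Dir, lam.real {x | x ∈ A ∧ sh (g d) x ∉ A}

/-- The error set used at stage `n`. -/
def ErrS (n R : ℕ) (x : Cfg) : Set V :=
  {w | Dfc (sgn false x) n w ∨ (w ∈ Core (sgn false x) R ∧ w ∉ Core (sgn false x) (R + 1))}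

/-! The process. -/

/-- Interarrival times of the clocks. -/
abbrev Clk := V → ℕ → ℝ
/-- Marks attached to the rings. -/
abbrev Mrk := V × ℕ → Dir
/-- Sample space: clocks, marks, initial configuration. -/
abbrev Om := (Clk × Mrk) × Cfg
/-- Update rules: mark and spins of the four neighbours give the new spin. -/
abbrev Rule := Dir → (Dir → Bool) → Bool

/-- Time of ring number `n`. -/
def tm (ξ : ℕ → ℝ) (n : ℕ) : ℝ := ∑ k ∈ Finset.range (n + 1), ξ k

/-- Number of rings strictly before time `t`. -/
noncomputable def cnt (ξ : ℕ → ℝ) (t : ℝ) : ℕ := sInf {n | t ≤ tm ξ n}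

/-- Spin of `v` just before time `t`, computed with fuel `D`. -/
noncomputable def val (r : Rule) (ω : Om) : ℕ → V → ℝ → Bool
  | 0, v, _ => ω.2 v
  | D + 1, v, t =>
      if cnt (ω.1.1 v) t = 0 then ω.2 v
      else r (ω.1.2 (v, cnt (ω.1.1 v) t - 1))
        (fun d => val r ω D (v * g d) (tm (ω.1.1 v) (cnt (ω.1.1 v) t - 1)))

/-- The fuel `D` suffices at `(v, t)`. -/
def Ok (ξ : Clk) : ℕ → V → ℝ → Prop
  | 0, _, _ => False
  | D + 1, v, t => cnt (ξ v) t = 0 ∨ ∀ d, Ok ξ D (v * g d) (tm (ξ v) (cnt (ξ v) t - 1))

open Classical in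
/-- Spin of `v` just before time `t`. -/
noncomputable def valI (r : Rule) (ω : Om) (v : V) (t : ℝ) : Bool :=
  decide (∃ D, Ok ω.1.1 D v t ∧ val r ω D v t = true)

/-- Majority of the three neighbours other than the one in direction `δ`. -/
def rI : Rule := fun δ y => decide (2 ≤ (Finset.univ.filter fun d => d ≠ δ ∧ y d = true).card)

/-- Majority of the four neighbours, with the coin `δ.2` in case of a tie. -/
def rC : Rule := fun δ y =>
  if 3 ≤ (Finset.univ.filter fun d => y d = true).card then true
  else if (Finset.univ.filter fun d => y d = true).card ≤ 1 then false else δ.2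

/-- Good clocks. -/
def Good (ξ : Clk) : Prop :=
  (∀ v n, 0 < ξ v n) ∧ (∀ v t, ∃ n, t ≤ tm (ξ v) n) ∧
  (∀ v w n m, v ≠ w → tm (ξ v) n ≠ tm (ξ w) m) ∧ (∀ v n (k : ℕ), tm (ξ v) n ≠ k) ∧
  (∀ v t, ∃ D, Ok ξ D v t)

/-- Exponential law with rate one. -/
noncomputable def ex1 : Measure ℝ := expMeasure 1

instance : IsProbabilityMeasure ex1 := isProbabilityMeasure_expMeasure one_pos

/-- Law of one clock. -/
noncomputable def mu1 : Measure (ℕ → ℝ) := Measure.infinitePi fun _ => ex1

instance : IsProbabilityMeasure mu1 := by unfold mu1; infer_instance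

/-- Law of the clocks. -/
noncomputable def muC : Measure Clk := Measure.infinitePi fun _ => mu1

instance : IsProbabilityMeasure muC := by unfold muC; infer_instance

/-- Law of the marks. -/
noncomputable def muM : Measure Mrk := Measure.infinitePi fun _ => uniformOn (univ : Set Dir)

instance : IsProbabilityMeasure muM := by unfold muM; infer_instance

/-- Law of the sample with initial density `q`. -/
noncomputable def PP (q : ℝ) : Measure Om := (muC.prod muM).prod (nu q)

instance (q : ℝ) : IsProbabilityMeasure (PP q) := by unfold PP; infer_instance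

/-- Shift of a sample. -/
def shO (u : V) (ω : Om) : Om := ((sh u ω.1.1, fun i => ω.1.2 (u * i.1, i.2)), sh u ω.2)

/-- Configuration just before time `t`, with fuel `D`. -/
noncomputable def cfgD (r : Rule) (D : ℕ) (t : ℝ) (ω : Om) : Cfg := fun v => val r ω D v t

/-- Configuration just before time `t`. -/
noncomputable def cfgI (r : Rule) (t : ℝ) (ω : Om) : Cfg := fun v => valI r ω v t

/-- Law of the truncated configuration. -/
noncomputable def lawD (r : Rule) (q : ℝ) (D : ℕ) (t : ℝ) : Measure Cfg := (PP q).map (cfgD r D t)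

/-- Law of the configuration. -/
noncomputable def lawI (r : Rule) (q : ℝ) (t : ℝ) : Measure Cfg := (PP q).map (cfgI r t)

/-- The clock that follows `ξ` before time `t` and `ζ` afterwards. -/
noncomputable def glue : ℕ → ℝ → (ℕ → ℝ) → (ℕ → ℝ) → ℝ
  | 0, t, ξ, ζ => if t ≤ ξ 0 then t + ζ 0 else ξ 0
  | n + 1, t, ξ, ζ => if t ≤ ξ 0 then ζ (n + 1) else glue n (t - ξ 0) (fun i => ξ (i + 1)) ζ

/-- The minus set after `R` pruning rounds as a function of the initial configuration. -/
noncomputable def KX (θ : Clk × Mrk) (D k R : ℕ) (x : Cfg) : Set V :=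
  Core (sgn false (cfgD rI D k (θ, x))) R

end Pool.Agent.MP_887f27_pr.H69
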