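import Pool.Agent.MP_887f27_pr.H69.Defs

/-! Geometry of the tree and elementary facts on messages, cores, paths. -/

namespace Pool.Agent.MP_887f27_pr.H69

open MeasureTheory ProbabilityTheory Set
open scoped ENNReal
open MP_77ae5d_pr.H74 (Dep)

@[simp] lemma rev_rev (d : Dir) : rev (rev d) = d := by simp [rev]

lemma rev_ne (d : Dir) : rev d ≠ d := by revert d; decide

lemma rev_inj {d d' : Dir} : rev d = rev d' ↔ d = d' := by revert d d'; decide

/-- Reversal as a permutation of the directions. -/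
def revE : Dir ≃ Dir := ⟨rev, rev, rev_rev, rev_rev⟩

lemma sum_rev {M : Type} [AddCommMonoid M] (f : Dir → M) : ∑ d, f (rev d) = ∑ d, f d :=
  Equiv.sum_comp revE f

lemma g_rev (d : Dir) : g (rev d) = (g d)⁻¹ := by
  simp [g, rev, FreeGroup.inv_mk, FreeGroup.invRev]

@[simp] lemma mul_g_rev (v : V) (d : Dir) : v * g d * g (rev d) = v := by
  simp [g_rev]

@[simp] lemma mul_rev_g (v : V) (d : Dir) : v * g (rev d) * g d = v := by
  simp [g_rev]

lemma g_true (i : Fin 2) : g (i, true) = FreeGroup.of i := rfl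

lemma g_false (i : Fin 2) : g (i, false) = (FreeGroup.of i)⁻¹ := g_rev (i, true)

lemma word_step (v : V) (d : Dir) :
    (v⁻¹).toWord = d :: ((v * g d)⁻¹).toWord ∨ ((v * g d)⁻¹).toWord = rev d :: (v⁻¹).toWord := by
  have h : ((v * g d)⁻¹).toWord = FreeGroup.reduce (rev d :: (v⁻¹).toWord) := by
    rw [mul_inv_rev, ← g_rev]
    conv_lhs => rw [← FreeGroup.mk_toWord (x := v⁻¹)]
    rw [g, FreeGroup.mul_mk, FreeGroup.toWord_mk]
    rfl
  rw [h, FreeGroup.reduce.cons, FreeGroup.reduce_toWord]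
  rcases hw : (v⁻¹).toWord with _ | ⟨hd, tl⟩
  · right; rfl
  · by_cases hc : (rev d).1 = hd.1 ∧ (rev d).2 = !hd.2
    · left
      have : hd = d := by
        obtain ⟨h1, h2⟩ := hc
        ext
        · simp [rev] at h1; simp [h1]
        · simp [rev] at h2; simp [h2]
      simp only [hc, and_self, if_true, this]
    · right
      simp only [hc, if_false]

lemma nrm_eq (v : V) : nrm v = (v⁻¹).toWord.length := by
  rw [nrm, ← FreeGroup.norm_inv_eq]; rfl

@[simp] lemma nrm_one : nrm 1 = 0 := rfl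

lemma nrm_eq_zero {v : V} : nrm v = 0 ↔ v = 1 := FreeGroup.norm_eq_zero

lemma nrm_inv (v : V) : nrm v⁻¹ = nrm v := FreeGroup.norm_inv_eq

lemma nrm_mul_le (u v : V) : nrm (u * v) ≤ nrm u + nrm v := FreeGroup.norm_mul_le u v

lemma nrm_step (v : V) (d : Dir) : nrm (v * g d) + 1 = nrm v ∨ nrm (v * g d) = nrm v + 1 := by
  rcases word_step v d with h | h
  · left; rw [nrm_eq v, nrm_eq (v * g d), h]; simp
  · right; rw [nrm_eq v, nrm_eq (v * g d), h]; simp

@[simp] lemma nrm_g (d : Dir) : nrm (g d) = 1 := by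
  have := nrm_step 1 d
  simp only [one_mul, nrm_one] at this
  omega

lemma mul_g_ne (v : V) (d : Dir) : v * g d ≠ v := by
  intro h
  have := nrm_step v d
  rw [h] at this
  omega

/-- There is at most one inward direction. -/
lemma inward_unique {v : V} {d d' : Dir} (h : nrm (v * g d) + 1 = nrm v)
    (h' : nrm (v * g d') + 1 = nrm v) : d = d' := by
  rcases word_step v d with a | a
  · rcases word_step v d' with b | b
    · rw [a] at b; exact (List.cons.inj b).1
    · rw [nrm_eq v, nrm_eq (v * g d'), b] at h'; simp at h'; omega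
  · rw [nrm_eq v, nrm_eq (v * g d), a] at h; simp at h; omega

/-- Children of an outward edge are outward. -/
lemma outward {v : V} {d d' : Dir} (h : nrm (v * g d) = nrm v + 1) (hd : d' ≠ rev d) :
    nrm (v * g d * g d') = nrm (v * g d) + 1 := by
  rcases nrm_step (v * g d) d' with a | a
  · exact absurd (inward_unique a (by rw [mul_g_rev]; omega)) hd
  · exact a

lemma g_inj {v : V} {d d' : Dir} (h : v * g d = v * g d') : d = d' := by
  have h1 : g d = g d' := mul_left_cancel h
  have := congrArg FreeGroup.toWord h1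
  simpa [g] using this

lemma finite_ball (r : ℕ) : {v : V | nrm v ≤ r}.Finite :=
  (List.finite_length_le (Fin 2 × Bool) r).preimage FreeGroup.toWord_injective.injOn

instance : Infinite V :=
  Infinite.of_surjective _ (FreeGroup.norm_surjective (α := Fin 2))

/-- The ball of radius `r` around the root. -/
noncomputable def ball (r : ℕ) : Finset V := (finite_ball r).toFinset

@[simp] lemma mem_ball {r : ℕ} {v : V} : v ∈ ball r ↔ nrm v ≤ r := by simp [ball]

lemma exists_nrm_le (H : Finset V) : ∃ r, ∀ v ∈ H, nrm v ≤ r :=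
  ⟨H.sup nrm, fun _ hv => Finset.le_sup (f := nrm) hv⟩

/-! Three and Two. -/

lemma Three.mono {P Q : Dir → Prop} (h : Three P) (hPQ : ∀ d, P d → Q d) : Three Q := by
  obtain ⟨a, b, c, h1, h2, h3, ha, hb, hc⟩ := h
  exact ⟨a, b, c, h1, h2, h3, hPQ _ ha, hPQ _ hb, hPQ _ hc⟩

lemma Two.mono {e : Dir} {P Q : Dir → Prop} (h : Two e P) (hPQ : ∀ d, d ≠ rev e → P d → Q d) :
    Two e Q := by
  obtain ⟨a, b, h1, h2, h3, ha, hb⟩ := h
  exact ⟨a, b, h1, h2, h3, hPQ _ h2 ha, hPQ _ h3 hb⟩

lemma three_congr {P Q : Dir → Prop} (h : ∀ d, P d ↔ Q d) : Three P ↔ Three Q :=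
  ⟨fun t => t.mono fun d => (h d).1, fun t => t.mono fun d => (h d).2⟩

lemma two_congr {e : Dir} {P Q : Dir → Prop} (h : ∀ d, P d ↔ Q d) : Two e P ↔ Two e Q :=
  ⟨fun t => t.mono fun d _ => (h d).1, fun t => t.mono fun d _ => (h d).2⟩

lemma Three.two {P : Dir → Prop} (h : Three P) (e : Dir) : Two e P := by
  obtain ⟨a, b, c, h1, h2, h3, ha, hb, hc⟩ := h
  by_cases e1 : a = rev e
  · exact ⟨b, c, h3, fun h => h1 (e1.trans h.symm), fun h => h2 (e1.trans h.symm), hb, hc⟩
  · by_cases e2 : b = rev e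
    · exact ⟨a, c, h2, e1, fun h => h3 (e2.trans h.symm), ha, hc⟩
    · exact ⟨a, b, h1, e1, e2, ha, hb⟩

lemma Two.three {P : Dir → Prop} {e : Dir} (h : Two e P) (he : P (rev e)) : Three P := by
  obtain ⟨a, b, h1, h2, h3, ha, hb⟩ := h
  exact ⟨a, b, rev e, h1, h2, h3, ha, hb, he⟩

lemma three_iff {P : Dir → Prop} : Three P ↔ ∃ e, ∀ d, d ≠ e → P d := by
  classical
  have key : ∀ p : Dir → Bool, (∃ a b c, a ≠ b ∧ a ≠ c ∧ b ≠ c ∧ p a = true ∧ p b = true ∧
      p c = true) ↔ ∃ e, ∀ d, d ≠ e → p d = true := by decide +kernel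
  simpa [Three] using key (fun d => decide (P d))

/-- Two failing directions exclude `Three`. -/
lemma Three.not_two_fail {P : Dir → Prop} (h : Three P) {a b : Dir} (hab : a ≠ b) (ha : ¬ P a)
    (hb : ¬ P b) : False := by
  obtain ⟨e, he⟩ := three_iff.1 h
  by_cases h1 : a = e
  · exact hb (he b (fun h2 => hab (h1.trans h2.symm)))
  · exact ha (he a h1)

lemma not_three {P : Dir → Prop} (h : ¬ Three P) : ∃ a b, a ≠ b ∧ ¬ P a ∧ ¬ P b := by
  classical
  have key : ∀ p : Dir → Bool, (¬ ∃ e, ∀ d, d ≠ e → p d = true) →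
      ∃ a b, a ≠ b ∧ ¬ p a = true ∧ ¬ p b = true := by decide +kernel
  rw [three_iff] at h
  simpa using key (fun d => decide (P d)) (by simpa using h)

lemma three_iff_card {P : Dir → Prop} [DecidablePred P] :
    Three P ↔ 3 ≤ (Finset.univ.filter P).card := by
  have key : ∀ p : Dir → Bool, (∃ e, ∀ d, d ≠ e → p d = true) ↔
      3 ≤ (Finset.univ.filter fun d => p d = true).card := by decide +kernel
  rw [three_iff]
  simpa using key (fun d => decide (P d))

/-! Messages and cores. -/

lemma Fw.mono_set {K K' : Set V} (h : K ⊆ K') : ∀ {j v d}, Fw K j v d → Fw K' j v d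
  | 0, _, _, hf => h hf
  | _ + 1, _, _, hf => hf.imp (fun a => h a) (fun t => t.mono fun _ _ a => Fw.mono_set h a)

lemma Fw.of_mem {K : Set V} {v : V} {d : Dir} (h : v * g d ∈ K) : ∀ j, Fw K j v d
  | 0 => h
  | _ + 1 => Or.inl h

lemma Fw.succ {K : Set V} : ∀ {j v d}, Fw K j v d → Fw K (j + 1) v d
  | 0, _, _, hf => Or.inl hf
  | _ + 1, _, _, hf => hf.imp id (fun t => t.mono fun _ _ a => Fw.succ a)

lemma Fw.mono {K : Set V} {j j' : ℕ} {v : V} {d : Dir} (h : Fw K j v d) (hj : j ≤ j') :
    Fw K j' v d := by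
  induction hj with
  | refl => exact h
  | step _ ih => exact ih.succ

lemma Dfc.mono {K : Set V} {j j' : ℕ} {u : V} (h : Dfc K j u) (hj : j ≤ j') : Dfc K j' u :=
  ⟨h.1, h.2.mono fun _ a => a.mono hj⟩

lemma core_succ_subset (K : Set V) (j : ℕ) : Core K (j + 1) ⊆ Core K j := fun _ h => h.1

lemma core_anti (K : Set V) {j j' : ℕ} (hj : j ≤ j') : Core K j' ⊆ Core K j := by
  induction hj with
  | refl => exact Subset.rfl
  | step _ ih => exact (core_succ_subset K _).trans ih

lemma core_subset (K : Set V) (j : ℕ) : Core K j ⊆ K := core_anti K (Nat.zero_le j)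

lemma core_mono {K K' : Set V} (h : K ⊆ K') : ∀ j, Core K j ⊆ Core K' j
  | 0 => h
  | j + 1 => fun _ hu => ⟨core_mono h j hu.1, hu.2.mono fun _ a => core_mono h j a⟩

/-! Paths and descendants. -/

lemma Path.mono_set {U U' : Set V} (h : U ⊆ U') : ∀ {l v d}, Path U l v d → Path U' l v d
  | 0, _, _, _ => trivial
  | _ + 1, _, _, ⟨h1, d', h2, h3⟩ => ⟨h h1, d', h2, Path.mono_set h h3⟩

lemma exists_ne_rev (d : Dir) : ∃ d', d' ≠ rev d := ⟨d, (rev_ne d).symm⟩

lemma Path.pred {U : Set V} : ∀ {l v d}, Path U (l + 1) v d → Path U l v d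
  | 0, _, _, _ => trivial
  | _ + 1, _, _, ⟨h1, d', h2, h3⟩ => ⟨h1, d', h2, Path.pred h3⟩

lemma Path.anti {U : Set V} {l l' : ℕ} {v : V} {d : Dir} (h : Path U l' v d) (hl : l ≤ l') :
    Path U l v d := by
  induction hl with
  | refl => exact h
  | step _ ih => exact ih h.pred

lemma Ray.step {U : Set V} {v : V} {d : Dir} (h : Ray U v d) :
    v * g d ∈ U ∧ ∃ d', d' ≠ rev d ∧ Ray U (v * g d) d' := by
  refine ⟨(h 1).1, ?_⟩
  by_contra hc
  push Not at hc
  have : ∀ d', ∃ l, d' ≠ rev d → ¬ Path U l (v * g d) d' := by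
    intro d'
    by_cases e : d' = rev d
    · exact ⟨0, fun h => absurd e h⟩
    · have := hc d' e
      simp only [Ray, not_forall] at this
      obtain ⟨l, hl⟩ := this
      exact ⟨l, fun _ => hl⟩
  choose l hl using this
  obtain ⟨_, d', h2, h3⟩ := h (Finset.univ.sup l + 1)
  exact hl d' h2 (h3.anti (Finset.le_sup (f := l) (Finset.mem_univ d')))

lemma Ray.of_coind {U : Set V} (Q : V → Dir → Prop)
    (hQ : ∀ v d, Q v d → v * g d ∈ U ∧ ∃ d', d' ≠ rev d ∧ Q (v * g d) d') {v : V} {d : Dir}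
    (h : Q v d) : Ray U v d := by
  intro l
  induction l generalizing v d with
  | zero => trivial
  | succ l ih =>
    obtain ⟨h1, d', h2, h3⟩ := hQ v d h
    exact ⟨h1, d', h2, ih h3⟩

lemma Desc.succ {r : ℕ} {e e' : V × Dir} (h : Desc r e e') : Desc (r + 1) e e' := by
  induction h with
  | refl => exact Desc.refl _ _
  | step h1 _ ih => exact Desc.step h1 ih

lemma Desc.mono {r r' : ℕ} {e e' : V × Dir} (h : Desc r e e') (hr : r ≤ r') : Desc r' e e' := by
  induction hr with
  | refl => exact h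
  | step _ ih => exact ih.succ

lemma Desc.trans {r s : ℕ} {e e' e'' : V × Dir} (h : Desc r e e') (h' : Desc s e' e'') :
    Desc (r + s) e e'' := by
  induction h with
  | refl => exact h'.mono (by omega)
  | @step r v d d' e h1 _ ih =>
    have : r + 1 + s = (r + s) + 1 := by omega
    rw [this]
    exact Desc.step h1 (ih h')

lemma Desc.child (v : V) {d d' : Dir} (h : d' ≠ rev d) : Desc 1 (v, d) (v * g d, d') :=
  Desc.step h (Desc.refl _ _)

/-- Reversal of a chain of edges. -/
lemma Desc.reverse {r : ℕ} {e e' : V × Dir} (h : Desc r e e') :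
    Desc r (e'.1 * g e'.2, rev e'.2) (e.1 * g e.2, rev e.2) := by
  induction h with
  | refl => exact Desc.refl _ _
  | @step r v d d' e h1 _ ih =>
    refine ih.trans ?_
    have := Desc.child (v * g d * g d') (d := rev d') (d' := rev d)
      (by rw [rev_rev]; exact fun h => h1 h.symm)
    rwa [mul_g_rev] at this

/-! Equivariance. -/

lemma sh_sh {α : Type} (u w : V) (x : V → α) : sh u (sh w x) = sh (w * u) x := by
  funext v; simp [sh, mul_assoc]

@[simp] lemma sh_one {α : Type} (x : V → α) : sh 1 x = x := by funext v; simp [sh]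

lemma fw_equiv {K K' : Set V} {u : V} (h : ∀ y, y ∈ K' ↔ u * y ∈ K) :
    ∀ j v d, Fw K' j v d ↔ Fw K j (u * v) d
  | 0, v, d => by simp only [Fw, h, mul_assoc]
  | j + 1, v, d => by
    simp only [Fw, h, mul_assoc]
    exact or_congr Iff.rfl (two_congr fun d' => by rw [fw_equiv h j])

lemma core_equiv {K K' : Set V} {u : V} (h : ∀ y, y ∈ K' ↔ u * y ∈ K) :
    ∀ j y, y ∈ Core K' j ↔ u * y ∈ Core K j
  | 0, y => h y
  | j + 1, y => by
    simp only [Core, mem_ofPred_eq]
    exact and_congr (core_equiv h j y) (three_congr fun d => by rw [core_equiv h j, mul_assoc])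

lemma dfc_equiv {K K' : Set V} {u : V} (h : ∀ y, y ∈ K' ↔ u * y ∈ K) (j : ℕ) (y : V) :
    Dfc K' j y ↔ Dfc K j (u * y) :=
  and_congr (not_congr (h y)) (three_congr fun d => fw_equiv h j y d)

lemma path_equiv {U U' : Set V} {u : V} (h : ∀ y, y ∈ U' ↔ u * y ∈ U) :
    ∀ l v d, Path U' l v d ↔ Path U l (u * v) d
  | 0, _, _ => Iff.rfl
  | l + 1, v, d => by
    simp only [Path, h, mul_assoc]
    exact and_congr Iff.rfl (exists_congr fun d' => by rw [path_equiv h l])

lemma Desc.shift {r : ℕ} {e e' : V × Dir} (h : Desc r e e') (u : V) :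
    Desc r (u * e.1, e.2) (u * e'.1, e'.2) := by
  induction h with
  | refl => exact Desc.refl _ _
  | step h1 _ ih => exact Desc.step h1 (by simpa [mul_assoc] using ih)

lemma mem_sgn_sh (s : Bool) (u : V) (x : Cfg) (y : V) : y ∈ sgn s (sh u x) ↔ u * y ∈ sgn s x :=
  Iff.rfl

lemma errS_sh (n R : ℕ) (u : V) (x : Cfg) (y : V) : y ∈ ErrS n R (sh u x) ↔ u * y ∈ ErrS n R x := by
  simp only [ErrS, mem_ofPred_eq]
  rw [dfc_equiv (mem_sgn_sh false u x), core_equiv (mem_sgn_sh false u x),
    core_equiv (mem_sgn_sh false u x)]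

lemma measurable_sh {α : Type} [MeasurableSpace α] (u : V) : Measurable (sh (α := α) u) :=
  measurable_pi_lambda _ fun _ => measurable_pi_apply _

lemma sh_update {α : Type} (u h : V) (b : V → α) (s : α) :
    sh u (Function.update b (u * h) s) = Function.update (sh u b) h s := by
  funext v
  by_cases e : v = h
  · subst e; simp [sh]
  · have : u * v ≠ u * h := fun a => e (mul_left_cancel a)
    simp [sh, Function.update_of_ne, e, this]

/-! Local events. -/

lemma Loc.measurableSet {A : Set Cfg} (h : Loc A) : MeasurableSet A := by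
  obtain ⟨H, hH⟩ := h
  exact hH.measurableSet H.finite_toSet

lemma loc_coord (v : V) (s : Bool) : Loc {x | x v = s} :=
  ⟨{v}, fun _ _ h hx => by
    simp only [mem_ofPred_eq] at hx ⊢
    rw [← h v (by simp)]; exact hx⟩

lemma loc_const (p : Prop) : Loc {_x | p} := ⟨∅, fun _ _ _ hx => hx⟩

lemma Loc.not {P : Cfg → Prop} (h : Loc {x | P x}) : Loc {x | ¬ P x} := by
  obtain ⟨H, hH⟩ := h
  exact ⟨H, fun a b hab ha hb => ha (hH b a (fun i hi => (hab i hi).symm) hb)⟩

lemma Loc.and {P Q : Cfg → Prop} (h : Loc {x | P x}) (h' : Loc {x | Q x}) :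
    Loc {x | P x ∧ Q x} := by
  classical
  obtain ⟨H, hH⟩ := h
  obtain ⟨H', hH'⟩ := h'
  refine ⟨H ∪ H', fun a b hab ha => ⟨hH a b (fun i hi => hab i ?_) ha.1,
    hH' a b (fun i hi => hab i ?_) ha.2⟩⟩
  · simp only [Finset.coe_union, mem_union]; exact Or.inl hi
  · simp only [Finset.coe_union, mem_union]; exact Or.inr hi

lemma Loc.or {P Q : Cfg → Prop} (h : Loc {x | P x}) (h' : Loc {x | Q x}) :
    Loc {x | P x ∨ Q x} := by
  have := (h.not.and h'.not).not
  simpa only [not_and_or, not_not] using this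

lemma loc_forall {ι : Type} [Finite ι] {P : ι → Cfg → Prop} (h : ∀ i, Loc {x | P i x}) :
    Loc {x | ∀ i, P i x} := by
  classical
  have := Fintype.ofFinite ι
  choose H hH using h
  refine ⟨Finset.univ.biUnion H, fun a b hab ha i => hH i a b (fun j hj => hab j ?_) (ha i)⟩
  simp only [Finset.coe_biUnion, Finset.coe_univ, mem_univ, iUnion_true, mem_iUnion]
  exact ⟨i, hj⟩

lemma loc_exists {ι : Type} [Finite ι] {P : ι → Cfg → Prop} (h : ∀ i, Loc {x | P i x}) :
    Loc {x | ∃ i, P i x} := by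
  have := (loc_forall fun i => (h i).not).not
  simpa only [not_forall, not_not] using this

lemma loc_three {P : Dir → Cfg → Prop} (h : ∀ d, Loc {x | P d x}) :
    Loc {x | Three fun d => P d x} :=
  loc_exists fun a => loc_exists fun b => loc_exists fun c => (loc_const _).and
    ((loc_const _).and ((loc_const _).and ((h a).and ((h b).and (h c)))))

lemma loc_two (e : Dir) {P : Dir → Cfg → Prop} (h : ∀ d, Loc {x | P d x}) :
    Loc {x | Two e fun d => P d x} :=
  loc_exists fun a => loc_exists fun b => (loc_const _).and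
    ((loc_const _).and ((loc_const _).and ((h a).and (h b))))

lemma loc_fw {K : Cfg → Set V} (h : ∀ y, Loc {x | y ∈ K x}) :
    ∀ j v d, Loc {x | Fw (K x) j v d}
  | 0, _, _ => h _
  | j + 1, v, d => (h _).or (loc_two d fun d' => loc_fw h j (v * g d) d')

lemma loc_core {K : Cfg → Set V} (h : ∀ y, Loc {x | y ∈ K x}) :
    ∀ j y, Loc {x | y ∈ Core (K x) j}
  | 0, y => h y
  | j + 1, y => (loc_core h j y).and (loc_three fun _ => loc_core h j _)

lemma loc_dfc {K : Cfg → Set V} (h : ∀ y, Loc {x | y ∈ K x}) (j : ℕ) (y : V) :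
    Loc {x | Dfc (K x) j y} :=
  (h y).not.and (loc_three fun d => loc_fw h j y d)

lemma loc_sgn (s : Bool) (y : V) : Loc {x | y ∈ sgn s x} := loc_coord y s

lemma loc_errS (n R : ℕ) (y : V) : Loc {x | y ∈ ErrS n R x} :=
  (loc_dfc (loc_sgn false) n y).or
    ((loc_core (loc_sgn false) R y).and (loc_core (loc_sgn false) (R + 1) y).not)

lemma Loc.sh {A : Set Cfg} (h : Loc A) (u : V) : Loc {x | sh u x ∈ A} := by
  classical
  obtain ⟨H, hH⟩ := h
  refine ⟨H.image (u * ·), fun a b hab ha => hH _ _ (fun i hi => hab _ ?_) ha⟩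
  simp only [Finset.coe_image, mem_image]
  exact ⟨i, hi, rfl⟩

/-! Measurability versions. -/

section Meas

variable {α : Type} [MeasurableSpace α]

lemma ms_three {P : Dir → α → Prop} (h : ∀ d, MeasurableSet {x | P d x}) :
    MeasurableSet {x | Three fun d => P d x} := by
  have h' := fun d => measurableSet_setOfPred.1 (h d)
  apply measurableSet_setOfPred.2
  unfold Three
  exact Measurable.exists fun a => Measurable.exists fun b => Measurable.exists fun c =>
    measurable_const.and (measurable_const.and (measurable_const.and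
      ((h' a).and ((h' b).and (h' c)))))

lemma ms_two (e : Dir) {P : Dir → α → Prop} (h : ∀ d, MeasurableSet {x | P d x}) :
    MeasurableSet {x | Two e fun d => P d x} := by
  have h' := fun d => measurableSet_setOfPred.1 (h d)
  apply measurableSet_setOfPred.2
  unfold Two
  exact Measurable.exists fun a => Measurable.exists fun b =>
    measurable_const.and (measurable_const.and (measurable_const.and ((h' a).and (h' b))))

lemma ms_fw {K : α → Set V} (h : ∀ y, MeasurableSet {x | y ∈ K x}) :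
    ∀ j v d, MeasurableSet {x | Fw (K x) j v d}
  | 0, _, _ => h _
  | j + 1, v, d => (h _).union (ms_two d fun d' => ms_fw h j (v * g d) d')

lemma ms_core {K : α → Set V} (h : ∀ y, MeasurableSet {x | y ∈ K x}) :
    ∀ j y, MeasurableSet {x | y ∈ Core (K x) j}
  | 0, y => h y
  | j + 1, y => (ms_core h j y).inter (ms_three fun _ => ms_core h j _)

lemma ms_path {U : α → Set V} (h : ∀ y, MeasurableSet {x | y ∈ U x}) :
    ∀ l v d, MeasurableSet {x | Path (U x) l v d}
  | 0, _, _ => by simp [Path]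
  | l + 1, v, d => by
    refine (h _).inter (measurableSet_setOfPred.2 (Measurable.exists fun d' =>
      measurable_const.and (measurableSet_setOfPred.1 (ms_path h l (v * g d) d'))))

lemma ms_ray {U : α → Set V} (h : ∀ y, MeasurableSet {x | y ∈ U x}) (v : V) (d : Dir) :
    MeasurableSet {x | Ray (U x) v d} :=
  measurableSet_setOfPred.2 (Measurable.forall fun l =>
    measurableSet_setOfPred.1 (ms_path h l v d))

end Meas

lemma ms_F {K : Cfg → Set V} (h : ∀ y, MeasurableSet {b | y ∈ K b}) (a y : V) :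
    MeasurableSet {b | y ∈ F K a b} :=
  MeasurableSet.diff
    ((h y).preimage (f := fun b : Cfg => Function.update b a false) measurable_update_left)
    ((h y).preimage (f := fun b : Cfg => Function.update b a true) measurable_update_left)

lemma ber_true {q : ℝ} (h0 : 0 ≤ q) (h1 : q ≤ 1) : ber q {true} = ENNReal.ofReal q := by
  simp [ber, min_eq_left h1, max_eq_right h0]

lemma ber_false {q : ℝ} (h0 : 0 ≤ q) (h1 : q ≤ 1) : ber q {false} = ENNReal.ofReal (1 - q) := by
  simp [ber, min_eq_left h1, max_eq_right h0]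

lemma ber_half (b : Bool) : ber (1 / 2) {b} = 1 / 2 := by
  have : ENNReal.ofReal (1 / 2) = 1 / 2 := by
    rw [ENNReal.ofReal_div_of_pos (by norm_num)]; simp
  cases b
  · rw [ber_false (by norm_num) (by norm_num), ← this]; norm_num
  · rw [ber_true (by norm_num) (by norm_num), this]

lemma inv_nu (q : ℝ) : Inv (nu q) := fun u =>
  ⟨measurable_sh u, Measure.map_infinitePi_infinitePi_of_inj (P := fun _ => ber q)
    (f := fun v => u * v) (mul_right_injective u)⟩

end Pool.Agent.MP_887f27_pr.H69
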