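import Pool.Agent.MP_887f27_pr.H69.Proc

/-! Assembly of the modules. -/

namespace Pool.Agent.MP_887f27_pr.H69

open MeasureTheory ProbabilityTheory Set Filter
open scoped ENNReal

lemma fw_of_closed {K M : Set V} (hKM : K ⊆ M) {Y : Finset V} {w : V} {L : ℕ}
    (hL : ∀ y ∈ Y, nrm (w⁻¹ * y) ≤ L)
    (hY : ∀ y ∈ Y, Three fun d => y * g d ∈ Y ∨ y * g d ∈ K) :
    ∀ (j : ℕ) (v : V) (d : Dir), nrm (w⁻¹ * v * g d) = nrm (w⁻¹ * v) + 1 →
      L < nrm (w⁻¹ * v * g d) + j → (v * g d ∈ Y ∨ v * g d ∈ K) → Fw M j v d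
  | 0, v, d, _, h2, h3 => by
    rcases h3 with h | h
    · have := hL _ h
      rw [← mul_assoc] at this
      omega
    · exact hKM h
  | j + 1, v, d, h1, h2, h3 => by
    rcases h3 with h | h
    · refine Or.inr (((hY _ h).two d).mono fun d' hd' a => ?_)
      have := outward h1 hd'
      refine fw_of_closed hKM hL hY j (v * g d) d' ?_ ?_ a
      · simpa only [mul_assoc] using this
      · rw [← mul_assoc, this]; omega
    · exact Or.inl (hKM h)

lemma clos_core (Y : Finset V) : ∃ n₀, ∀ n, n₀ ≤ n → ∀ (R : ℕ) (x : Cfg),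
    (∀ w ∈ Y, w ∉ ErrS n R x) → Clos (Core (sgn false x) R) Y := by
  classical
  obtain ⟨L, hL⟩ := exists_nrm_le ((Y ×ˢ Y).image fun p => p.1⁻¹ * p.2)
  refine ⟨L, fun n hn R x hE hY => ?_⟩
  have h0 : ∀ w ∈ Y, w ∈ sgn false x := by
    intro w hw
    by_contra hc
    refine hE w hw (Or.inl ⟨hc, (hY w hw).mono fun d a => ?_⟩)
    refine fw_of_closed (core_subset _ R) (w := w) (L := L) (fun y hy => hL _ ?_) hY n w d ?_ ?_ a
    · exact Finset.mem_image.2 ⟨(w, y), Finset.mem_product.2 ⟨hw, hy⟩, rfl⟩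
    · simp
    · simp; omega
  have h1 : ∀ i, i ≤ R → ∀ w ∈ Y, w ∈ Core (sgn false x) i := by
    intro i
    induction i with
    | zero => exact fun _ => h0
    | succ i ih =>
      intro hi w hw
      refine ⟨ih (by omega) w hw, (hY w hw).mono fun d a => ?_⟩
      exact a.elim (ih (by omega) _) (fun b => core_anti _ (by omega) b)
  exact h1 R le_rfl

/-- The sample obtained from a forced set and fair bits. -/
def orO (ω : Om) (b : Cfg) : Om := (ω.1, fun v => (ω.2 v || b v))

lemma orO_sh (u : V) (ω : Om) (b : Cfg) : orO (shO u ω) (sh u b) = shO u (orO ω b) := rfl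

lemma prod_orO {q : ℝ} (h0 : 1 / 2 ≤ q) (h1 : q ≤ 1) {E : Set Om} (hE : MeasurableSet E) :
    ((PP (2 * q - 1)).prod pi0) {p | orO p.1 p.2 ∈ E} = PP q E := by
  have := PP_eq_map (η := 2 * q - 1) (by linarith) (by linarith)
  rw [show (1 + (2 * q - 1)) / 2 = q by ring] at this
  rw [← this, Measure.map_apply measurable_orO hE]
  rfl

lemma or_update (S b : Cfg) (h : V) (s : Bool) (hS : S h = false) :
    (fun v => (S v || Function.update b h s v)) = Function.update (fun v => (S v || b v)) h s := by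
  funext v
  by_cases e : v = h
  · subst e; simp [hS]
  · simp [Function.update_of_ne e]

lemma or_update' (S b : Cfg) (h : V) (s s' : Bool) (hS : S h = true) :
    (fun v => (S v || Function.update b h s v)) = (fun v => (S v || Function.update b h s' v)) := by
  funext v
  by_cases e : v = h
  · subst e; simp [hS]
  · simp [Function.update_of_ne e]

lemma ms_FX (D k R : ℕ) (h y : V) : MeasurableSet {ω : Om | y ∈ F (KX ω.1 D k R) h ω.2} := by
  have m : ∀ s, Measurable fun ω : Om => ((ω.1, Function.update ω.2 h s) : Om) := fun s =>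
    measurable_fst.prodMk (measurable_update_left.comp measurable_snd)
  exact MeasurableSet.diff (m false (ms_KX D k R y)) (m true (ms_KX D k R y))

theorem small_bd (hsel : SelStmt) (hns : NoSeqStmt) (hpar : ParamB) {p ε : ℝ} (hp : 1 / 2 < p)
    (hp1 : p < 1) (hε : 0 < ε) : ∃ q ∈ Icc (1 / 2 : ℝ) p, ∃ k : ℕ, bd (lawI rI q k) < ε := by
  by_contra hc
  push Not at hc
  have hc0 : ENNReal.ofReal (ε / 32) ≠ 0 := by
    simp only [ne_eq, ENNReal.ofReal_eq_zero, not_le]; linarith
  obtain ⟨My, C, l, hMy, hC, hS⟩ := hsel (ENNReal.ofReal (ε / 32))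
    (ENNReal.ofReal (3 / (p - 1 / 2))) hc0 ENNReal.ofReal_ne_top
  have key : ∀ n : ℕ, ∃ (ω : Om) (k R D : ℕ),
      ENNReal.ofReal (ε / 32) / 2 ≤ pi0 {b | 1 ∈ KX ω.1 D k R (orO ω b).2} ∧
      (∀ y, ∑' h : V, pi0 {b | y ∈ F (fun b => KX ω.1 D k R (orO ω b).2) h b} ≤ My y) ∧
      (∀ y, pi0 {b | y ∈ ErrS n R (cfgD rI D k (orO ω b))} ≤ C y * 2⁻¹ ^ n) ∧
      ∀ y i r h, ¬ Trif (fun b => KX ω.1 D k R (orO ω b).2) h y i r (l y i r) := by
    intro n
    obtain ⟨q, hq, k, R, D, h1, h2, h3⟩ := hpar p ε hp hp1 hε hc n (2⁻¹ ^ n) (by positivity)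
    have hq1 : q ≤ 1 := hq.2.trans hp1.le
    obtain ⟨ω, hω⟩ := hS (PP (2 * q - 1)) (fun ω b => KX ω.1 D k R (orO ω b).2)
      (fun ω b => ErrS n R (cfgD rI D k (orO ω b))) (2⁻¹ ^ n) (by simp) (by simp)
      (mp_shO _) (fun y => measurable_orO (ms_KX D k R y))
      (fun y => measurable_orO (measurable_cfgD rI D k (loc_errS n R y).measurableSet))
      (fun u ω b y => by
        show y ∈ Core (sgn false (cfgD rI D k (orO (shO u ω) (sh u b)))) R ↔
          u * y ∈ Core (sgn false (cfgD rI D k (orO ω b))) R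
        rw [orO_sh, cfgD_shO]
        exact core_equiv (mem_sgn_sh false u _) R y)
      (fun u ω b y => by rw [orO_sh, cfgD_shO]; exact errS_sh n R u _ y)
      (by
        have := prod_orO hq.1 hq1 (ms_KX D k R 1)
        refine le_trans ?_ this.ge
        rw [lawD_real _ _ _ _ (loc_core (loc_sgn false) R 1).measurableSet] at h1
        exact ENNReal.ofReal_le_of_le_toReal h1)
      (by
        refine le_trans (ENNReal.tsum_le_tsum fun h => ?_) h2
        rw [← prod_orO hq.1 hq1 (ms_FX D k R h 1)]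
        refine measure_mono fun a ha => ?_
        simp only [F, orO, mem_ofPred_eq] at ha ⊢
        cases hh : a.1.2 h
        · rwa [or_update _ _ _ _ hh, or_update _ _ _ _ hh] at ha
        · rw [or_update' _ _ _ false true hh] at ha
          exact absurd ha.1 ha.2)
      (by
        have := prod_orO hq.1 hq1
          (measurable_cfgD rI D k (loc_errS n R 1).measurableSet)
        refine le_trans this.le ?_
        rw [lawD_real _ _ _ _ (loc_errS n R 1).measurableSet] at h3
        have e : (2⁻¹ : ℝ≥0∞) ^ n = ENNReal.ofReal (2⁻¹ ^ n) := by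
          rw [ENNReal.ofReal_pow (by norm_num), ENNReal.ofReal_inv_of_pos (by norm_num)]
          simp
        rw [e]
        exact (ENNReal.le_ofReal_iff_toReal_le (measure_ne_top _ _) (by positivity)).2 h3)
    exact ⟨ω, k, R, D, hω⟩
  choose ω k R D h1 h2 h3 h4 using key
  refine hns (fun n b => KX (ω n).1 (D n) (k n) (R n) (orO (ω n) b).2)
    (fun n b => ErrS n (R n) (cfgD rI (D n) (k n) (orO (ω n) b))) (ENNReal.ofReal (ε / 32) / 2)
    (by simpa using hε) ?_ ?_ ?_ ?_ h1 ?_ ?_ ?_ (fun y => ⟨My y, hMy y, fun n => h2 n y⟩)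
    (fun y i r => ⟨l y i r, fun n h => h4 n y i r h⟩)
  · intro n y
    obtain ⟨H, hH⟩ := cfgD_local rI (D n) (loc_core (loc_sgn false) (R n) y)
    refine ⟨H, fun a b hab ha => hH (orO (ω n) a) (orO (ω n) b) (k n) (fun w hw => ?_) ha⟩
    exact ⟨rfl, fun _ => rfl, by simp only [orO, hab w hw]⟩
  · intro n y
    exact (measurable_orO.comp (f := fun b : Cfg => (ω n, b)) (by fun_prop))
      (measurable_cfgD rI (D n) (k n) (loc_errS n (R n) y).measurableSet)
  · intro n b b' hb
    refine KX_anti _ _ _ _ fun v => ?_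
    have := hb v
    show ((ω n).2 v || b v) ≤ ((ω n).2 v || b' v)
    cases (ω n).2 v
    · simpa using this
    · simp
  · intro n y
    exact le_trans (measure_mono fun b hb => core_subset _ _ hb)
      (half_quenched (ω n).1 (ω n).2 (D n) y (k n))
  · intro y
    refine ne_top_of_le_ne_top ?_ (ENNReal.tsum_le_tsum fun n => h3 n y)
    rw [ENNReal.tsum_mul_left, ENNReal.tsum_geometric]
    exact ENNReal.mul_ne_top (hC y) (by simp)
  · intro n b y hy hK
    by_contra hT
    exact hy (Or.inr ⟨hK, fun a => hT a.2⟩)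
  · intro Y
    obtain ⟨n₀, hn₀⟩ := clos_core Y
    exact ⟨n₀, fun n hn b hb => hn₀ n hn (R n) _ hb⟩

lemma half_lawI (hG : GoodAE) {q : ℝ} (h0 : 1 / 2 ≤ q) (h1 : q ≤ 1) (t : ℝ) :
    (lawI rI q t).real {x | x 1 = false} ≤ 1 / 2 := by
  have hD : ∀ D, (lawD rI q D t).real {x | x 1 = false} ≤ 1 / 2 := by
    intro D
    have mA := measurable_cfgD rI D t (loc_coord 1 false).measurableSet
    rw [lawD_real _ _ _ _ (loc_coord 1 false).measurableSet]
    have e := prod_orO h0 h1 mA
    have : PP q {ω | cfgD rI D t ω ∈ {x : Cfg | x 1 = false}} ≤ 1 / 2 := by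
      refine le_trans e.ge ?_
      refine le_trans (Measure.prod_apply (measurable_orO mA)).le ?_
      calc _ ≤ ∫⁻ _, 1 / 2 ∂PP (2 * q - 1) :=
            lintegral_mono fun ω => half_quenched ω.1 ω.2 D 1 t
        _ = 1 / 2 := by simp
    have h2 := ENNReal.toReal_mono (by simp) this
    simpa [measureReal_def] using h2
  refine le_of_forall_pos_le_add fun ε hε => ?_
  obtain ⟨D, h⟩ := (approx hG t (loc_coord 1 false) hε).exists
  have := abs_le.1 (h rI q)
  linarith [hD D]

lemma lawI_mono {q p : ℝ} (hq0 : 0 ≤ q) (hq1 : q < 1) (hqp : q ≤ p) (hp : p ≤ 1) (t : ℝ) (R : ℕ) :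
    (lawI rI p t).real {x | 1 ∉ Core (sgn true x) R} ≤
      (lawI rI q t).real {x | 1 ∉ Core (sgn true x) R} := by
  have mA := (loc_core (loc_sgn true) R 1).measurableSet
  have h : lawI rI q t {x | 1 ∈ Core (sgn true x) R} ≤ lawI rI p t {x | 1 ∈ Core (sgn true x) R} := by
    have mB : MeasurableSet {ω | cfgI rI t ω ∈ {x | 1 ∈ Core (sgn true x) R}} :=
      measurable_cfgI rI t mA
    rw [lawI_apply _ _ _ mA, lawI_apply _ _ _ mA]
    unfold PP
    rw [Measure.prod_apply mB, Measure.prod_apply mB]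
    refine lintegral_mono fun θ => nu_mono hq0 hq1 hqp hp (measurable_prodMk_left mB) ?_
    intro x x' hx hm
    exact core_mono (sgn_true_mono fun v => valI_mono mono_rI θ hx v t) R hm
  have h' := ENNReal.toReal_mono (measure_ne_top _ _) h
  have e1 := probReal_compl_eq_one_sub (μ := lawI rI q t) mA
  have e2 := probReal_compl_eq_one_sub (μ := lawI rI p t) mA
  simp only [← measureReal_def] at h'
  have c1 : {x : Cfg | 1 ∉ Core (sgn true x) R} = {x : Cfg | 1 ∈ Core (sgn true x) R}ᶜ := rfl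
  rw [c1, e1, e2]
  linarith

theorem target_of (hJ : JuntaStmt) (hA : AbstractStmt) (hL : LimitStmt) (hCo : CountStmt)
    (hSe : SelectStmt) (h1 : S1Stmt) (h2 : S2Stmt) (hX : X1Stmt) (hR : RussoStmt) (hGl : GlueStmt)
    (hGo : GoodStmt) (hE : EnergyStmt) (hPa : PatternStmt) (hD : DefectStmt) (hT : TransferStmt)
    (hEx : ExpandStmt) (hP : ParamStmt) (hLaw : LawStmt) (hB : BridgeStmt) {p : ℝ}
    (hp : 1 / 2 < p) (hp1 : p ≤ 1) : Target p := by
  have hG := hGo hGl
  refine hB hG hLaw p (by linarith) hp1 fun ε hε => ?_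
  obtain ⟨q, hq, k, hk⟩ := small_bd (hSe hCo) (hL hJ hA) (hP hG hR h1 (hD hG (hE hG) (hPa hGl hG)))
    (p := min p (3 / 4)) (ε := min (ε / 2) (1 / 5)) (lt_min hp (by norm_num))
    ((min_le_right _ _).trans_lt (by norm_num)) (lt_min (by linarith) (by norm_num))
  have hq1 : q < 1 := (hq.2.trans (min_le_right _ _)).trans_lt (by norm_num)
  refine ⟨k, fun R => ?_⟩
  rw [hT hG]
  refine (lawI_mono (by linarith [hq.1]) hq1 (hq.2.trans (min_le_left _ _)) hp1 k R).trans ?_
  have := h2 (lawI rI q k) (inv_lawI rI q k) (hEx hG hX q k) (half_lawI hG hq.1 hq1.le k)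
    (hk.le.trans (min_le_right _ _)) R
  linarith [hk.le.trans (min_le_left _ _)]

end Pool.Agent.MP_887f27_pr.H69
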