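import Pool.Agent.MP_887f27_pr.H69.Geo

/-! General facts on infinite product measures. -/

namespace Pool.Agent.MP_887f27_pr.H69

open MeasureTheory ProbabilityTheory Set
open scoped ENNReal

section General

variable {ι α : Type} [MeasurableSpace α] (ν : ι → Measure α) [∀ i, IsProbabilityMeasure (ν i)]

lemma measurable_pw (S : Set ι) [DecidablePred (· ∈ S)] :
    Measurable (fun p : (ι → α) × (ι → α) => S.piecewise p.1 p.2) := by
  refine measurable_pi_lambda _ (fun i => ?_)
  by_cases hi : i ∈ S
  · simp only [Set.piecewise, hi, if_true]; fun_prop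
  · simp only [Set.piecewise, hi, if_false]; fun_prop

lemma map_pw (S : Set ι) [DecidablePred (· ∈ S)] :
    ((Measure.infinitePi ν).prod (Measure.infinitePi ν)).map
      (fun p : (ι → α) × (ι → α) => S.piecewise p.1 p.2) = Measure.infinitePi ν := by
  classical
  apply Measure.eq_infinitePi
  intro s t ht
  rw [Measure.map_apply (measurable_pw S) (MeasurableSet.pi s.countable_toSet (fun i _ => ht i))]
  have : (fun p : (ι → α) × (ι → α) => S.piecewise p.1 p.2) ⁻¹' (Set.pi (↑s) t)
      = (Set.pi (↑(s.filter (· ∈ S))) t) ×ˢ (Set.pi (↑(s.filter (· ∉ S))) t) := by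
    ext p
    simp only [mem_preimage, Set.mem_pi, Finset.mem_coe, Set.mem_prod, Finset.mem_filter]
    constructor
    · intro h
      refine ⟨fun i hi => ?_, fun i hi => ?_⟩
      · have := h i hi.1; simpa [Set.piecewise, hi.2] using this
      · have := h i hi.1; simpa [Set.piecewise, hi.2] using this
    · rintro ⟨h1, h2⟩ i hi
      by_cases hS : i ∈ S
      · simpa [Set.piecewise, hS] using h1 i ⟨hi, hS⟩
      · simpa [Set.piecewise, hS] using h2 i ⟨hi, hS⟩
  rw [this, Measure.prod_prod, Measure.infinitePi_pi _ (fun i _ => ht i),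
    Measure.infinitePi_pi _ (fun i _ => ht i), Finset.prod_filter_mul_prod_filter_not]

/-- Two maps that depend on complementary sets of coordinates are independent. -/
lemma map_prod_of_dep {β γ : Type} [MeasurableSpace β] [MeasurableSpace γ] (S : Set ι)
    {f : (ι → α) → β} {k : (ι → α) → γ} (hf : Measurable f) (hk : Measurable k)
    (df : ∀ a b, (∀ i ∈ S, a i = b i) → f a = f b) (dk : ∀ a b, (∀ i ∉ S, a i = b i) → k a = k b) :
    (Measure.infinitePi ν).map (fun a => (f a, k a)) =
      ((Measure.infinitePi ν).map f).prod ((Measure.infinitePi ν).map k) := by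
  classical
  rw [Measure.map_prod_map _ _ hf hk]
  conv_lhs => rw [← map_pw ν S]
  rw [Measure.map_map (hf.prodMk hk) (measurable_pw S)]
  congr 1
  funext p
  simp only [Function.comp, Prod.map]
  rw [df _ p.1 (fun i hi => by simp [Set.piecewise, hi]),
    dk _ p.2 (fun i hi => by simp [Set.piecewise, hi])]

lemma indep_sets (S : Set ι) {A B : Set (ι → α)} (hA : MeasurableSet A) (hB : MeasurableSet B)
    (dA : ∀ a b, (∀ i ∈ S, a i = b i) → a ∈ A → b ∈ A)
    (dB : ∀ a b, (∀ i ∉ S, a i = b i) → a ∈ B → b ∈ B) :
    Measure.infinitePi ν (A ∩ B) = Measure.infinitePi ν A * Measure.infinitePi ν B := by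
  classical
  conv_lhs => rw [← map_pw ν S]
  rw [Measure.map_apply (measurable_pw S) (hA.inter hB), ← Measure.prod_prod]
  congr 1
  ext p
  simp only [mem_preimage, mem_inter_iff, Set.mem_prod]
  have h1 : ∀ i ∈ S, S.piecewise p.1 p.2 i = p.1 i := fun i hi => by simp [Set.piecewise, hi]
  have h2 : ∀ i ∉ S, S.piecewise p.1 p.2 i = p.2 i := fun i hi => by simp [Set.piecewise, hi]
  exact ⟨fun h => ⟨dA _ _ h1 h.1, dB _ _ h2 h.2⟩,
    fun h => ⟨dA _ _ (fun i hi => (h1 i hi).symm) h.1, dB _ _ (fun i hi => (h2 i hi).symm) h.2⟩⟩

lemma measure_eval (i : ι) {B : Set α} (hB : MeasurableSet B) :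
    Measure.infinitePi ν {a | a i ∈ B} = ν i B :=
  (measurePreserving_eval_infinitePi ν i).measure_preimage hB.nullMeasurableSet

/-- An event that is invariant under changes of the coordinate `i` is independent of it. -/
lemma measure_inter_eval [DecidableEq ι] (i : ι) {A : Set (ι → α)} (hA : MeasurableSet A)
    (dA : ∀ a c, a ∈ A → Function.update a i c ∈ A) {B : Set α} (hB : MeasurableSet B) :
    Measure.infinitePi ν (A ∩ {a | a i ∈ B}) = ν i B * Measure.infinitePi ν A := by
  have hB' : MeasurableSet {a : ι → α | a i ∈ B} := hB.preimage (measurable_pi_apply i)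
  rw [inter_comm, indep_sets ν {i} hB' hA, measure_eval ν i hB]
  · intro a b h ha
    simp only [mem_ofPred_eq] at ha ⊢
    rw [← h i rfl]; exact ha
  · intro a b h ha
    have : b = Function.update a i (b i) := by
      funext j
      by_cases hj : j = i
      · subst hj; simp
      · rw [Function.update_of_ne hj]; exact (h j hj).symm
    rw [this]; exact dA a _ ha

/-- Sitewise maps of two independent product fields. -/
lemma map_zip {β γ : Type} [MeasurableSpace β] [MeasurableSpace γ] (ρ : ι → Measure β)
    [∀ i, IsProbabilityMeasure (ρ i)] {f : α × β → γ} (hf : Measurable f) :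
    ((Measure.infinitePi ν).prod (Measure.infinitePi ρ)).map (fun p i => f (p.1 i, p.2 i)) =
      Measure.infinitePi fun i => ((ν i).prod (ρ i)).map f := by
  have key : ((Measure.infinitePi ν).prod (Measure.infinitePi ρ)).map
      (fun p i => (p.1 i, p.2 i)) = Measure.infinitePi fun i => (ν i).prod (ρ i) := by
    refine ((Measure.isProjectiveLimit_infinitePi _).unique ?_).symm
    intro I
    have h1 := (measurePreserving_arrowProdEquivProdArrow α β I (fun i => ν i)
      (fun i => ρ i)).symm
    beta_reduce
    rw [← h1.map_eq, ← Measure.infinitePi_map_restrict, ← Measure.infinitePi_map_restrict,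
      Measure.map_prod_map _ _ (Finset.measurable_restrict I) (Finset.measurable_restrict I),
      Measure.map_map (Finset.measurable_restrict I) (by fun_prop)]
    have m1 : Measurable (Prod.map I.restrict I.restrict :
        (ι → α) × (ι → β) → (I → α) × (I → β)) :=
      (Finset.measurable_restrict (X := fun _ => α) I).prodMap
        (Finset.measurable_restrict (X := fun _ => β) I)
    rw [Measure.map_map (MeasurableEquiv.arrowProdEquivProdArrow α β I).symm.measurable m1]
    rfl
  rw [← Measure.infinitePi_map_pi _ (fun _ => hf), ← key, Measure.map_map (by fun_prop) (by fun_prop)]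
  rfl

end General

/-- Head and tail of a sequence. -/
lemma map_cons {α : Type} [MeasurableSpace α] (ν : Measure α) [IsProbabilityMeasure ν] :
    (Measure.infinitePi fun _ : ℕ => ν).map (fun a => (a 0, fun i => a (i + 1))) =
      ν.prod (Measure.infinitePi fun _ : ℕ => ν) := by
  rw [map_prod_of_dep (fun _ : ℕ => ν) {0} (f := fun a => a 0) (k := fun a i => a (i + 1))
    (by fun_prop) (by fun_prop) (fun a b h => h 0 rfl)
    (fun a b h => funext fun i => h _ (by simp)), Measure.infinitePi_map_eval,
    Measure.map_infinitePi_infinitePi_of_inj (P := fun _ : ℕ => ν) (f := fun i => i + 1)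
      (add_left_injective 1)]

/-- Triangular maps preserve a uniform product measure. -/
lemma map_tri {ι α : Type} [DecidableEq ι] [Fintype α] [Nonempty α] [MeasurableSpace α]
    [MeasurableSingletonClass α] (rk : ι → ℝ) (f : ι → (ι → α) → α → α)
    (hm : ∀ i c, Measurable fun a => f i a c) (hb : ∀ i a, Function.Injective (f i a))
    (hd : ∀ i j a c, rk i ≤ rk j → f i (Function.update a j c) = f i a) :
    (Measure.infinitePi fun _ : ι => uniformOn (univ : Set α)).map (fun a i => f i a (a i)) =
      Measure.infinitePi fun _ : ι => uniformOn (univ : Set α) := by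
  classical
  set μ := Measure.infinitePi fun _ : ι => uniformOn (univ : Set α) with hμ
  have hm1 : ∀ i, Measurable fun a : ι → α => f i a (a i) := by
    intro i
    have : Measurable fun p : (ι → α) × α => f i p.1 p.2 :=
      measurable_from_prod_countable_left fun c => hm i c
    exact this.comp (measurable_id.prodMk (measurable_pi_apply i))
  have hm2 : Measurable fun (a : ι → α) i => f i a (a i) := measurable_pi_lambda _ hm1
  apply Measure.eq_infinitePi
  intro s t ht
  rw [Measure.map_apply hm2 (MeasurableSet.pi s.countable_toSet (fun i _ => ht i))]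
  induction s using Finset.induction_on_max_value rk with
  | empty => simp
  | insert j s hj hmax ih =>
    rw [Finset.prod_insert hj, ← ih]
    set E := (fun (a : ι → α) i => f i a (a i)) ⁻¹' (Set.pi (↑s) t) with hE
    have mE : MeasurableSet E := hm2 (MeasurableSet.pi s.countable_toSet (fun i _ => ht i))
    have dE : ∀ a c, a ∈ E → Function.update a j c ∈ E := by
      intro a c ha i hi
      have hij : i ≠ j := fun e => hj (e ▸ hi)
      have := ha i hi
      simpa [hd i j a c (hmax i hi), Function.update_of_ne hij] using this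
    have mG : ∀ c, MeasurableSet (E ∩ {a | f j a c ∈ t j}) := fun c =>
      mE.inter ((ht j).preimage (hm j c))
    have e1 : (fun (a : ι → α) i => f i a (a i)) ⁻¹' (Set.pi (↑(insert j s)) t) =
        ⋃ c, (E ∩ {a | f j a c ∈ t j}) ∩ {a | a j ∈ ({c} : Set α)} := by
      ext a
      simp only [Finset.coe_insert, insert_pi, mem_preimage, mem_inter_iff, Function.eval,
        mem_iUnion, mem_ofPred_eq, mem_singleton_iff, hE]
      constructor
      · rintro ⟨h1, h2⟩; exact ⟨a j, ⟨h2, h1⟩, rfl⟩
      · rintro ⟨c, ⟨h2, h1⟩, rfl⟩; exact ⟨h1, h2⟩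
    rw [e1, measure_iUnion, tsum_fintype]
    · have e2 : ∀ c, μ ((E ∩ {a | f j a c ∈ t j}) ∩ {a | a j ∈ ({c} : Set α)}) =
          (Fintype.card α : ℝ≥0∞)⁻¹ * ∫⁻ a in E, (t j).indicator 1 (f j a c) ∂μ := by
        intro c
        rw [hμ, measure_inter_eval _ j (mG c) _ (measurableSet_singleton c), uniformOn_univ]
        · congr 1
          · simp
          · have hB' : MeasurableSet {a : ι → α | f j a c ∈ t j} := (ht j).preimage (hm j c)
            rw [← hμ, inter_comm, ← Measure.restrict_apply hB', ← lintegral_indicator_one hB']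
            rfl
        · intro a c' ha
          refine ⟨dE a c' ha.1, ?_⟩
          have := ha.2
          simpa [hd j j a c' le_rfl] using this
      simp only [e2]
      rw [← Finset.mul_sum, ← lintegral_finsetSum _
        (f := fun c a => (t j).indicator (1 : α → ℝ≥0∞) (f j a c)) (fun c _ =>
        (measurable_one.indicator (ht j)).comp (hm j c))]
      have e3 : ∀ a, ∑ c, (t j).indicator (1 : α → ℝ≥0∞) (f j a c) = Measure.count (t j) := by
        intro a
        have hbij : Function.Bijective (f j a) := Finite.injective_iff_bijective.1 (hb j a)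
        rw [hbij.sum_comp (fun c => (t j).indicator (1 : α → ℝ≥0∞) c), ← lintegral_indicator_one (ht j),
          lintegral_count, tsum_fintype]
      simp only [e3]
      rw [lintegral_const, Measure.restrict_apply_univ, uniformOn_univ, ← mul_assoc,
        ENNReal.div_eq_inv_mul]
    · intro c c' hcc
      refine Set.disjoint_left.2 fun a h1 h2 => hcc ?_
      exact h1.2.symm.trans h2.2
    · intro c
      exact (mG c).inter ((measurableSet_singleton c).preimage (measurable_pi_apply j))

/-- Law of the union of two independent fields. -/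
lemma map_or {a b : ℝ} (ha0 : 0 ≤ a) (ha1 : a ≤ 1) (hb0 : 0 ≤ b) (hb1 : b ≤ 1) :
    ((nu a).prod (nu b)).map (fun p v => (p.1 v || p.2 v)) = nu (1 - (1 - a) * (1 - b)) := by
  have h0 : 0 ≤ (1 - a) * (1 - b) := mul_nonneg (by linarith) (by linarith)
  have h1 : (1 - a) * (1 - b) ≤ 1 := by nlinarith
  have := map_zip (fun _ : V => ber a) (fun _ : V => ber b) (f := fun p : Bool × Bool => p.1 || p.2)
    (measurable_of_countable _)
  unfold nu
  rw [this]
  congr 1
  funext _
  have hP : IsProbabilityMeasure (((ber a).prod (ber b)).map fun p : Bool × Bool => p.1 || p.2) :=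
    Measure.isProbabilityMeasure_map (measurable_of_countable _).aemeasurable
  have hf : (((ber a).prod (ber b)).map fun p : Bool × Bool => p.1 || p.2) {false} =
      ber (1 - (1 - a) * (1 - b)) {false} := by
    rw [Measure.map_apply (measurable_of_countable _) (measurableSet_singleton _)]
    have : (fun p : Bool × Bool => p.1 || p.2) ⁻¹' {false} = {false} ×ˢ {false} := by
      ext ⟨x, y⟩; cases x <;> cases y <;> simp
    rw [this, Measure.prod_prod, ber_false ha0 ha1, ber_false hb0 hb1,
      ber_false (by linarith) (by linarith), ← ENNReal.ofReal_mul (by linarith)]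
    congr 1; ring
  apply Measure.ext_of_singleton
  intro x
  cases x
  · exact hf
  · have e : ({true} : Set Bool) = {false}ᶜ := by ext x; cases x <;> simp
    rw [e, prob_compl_eq_one_sub (measurableSet_singleton _),
      prob_compl_eq_one_sub (measurableSet_singleton _), hf]

lemma measurable_or : Measurable fun (p : Cfg × Cfg) (v : V) => (p.1 v || p.2 v) :=
  measurable_pi_lambda _ fun v =>
    (measurable_of_countable (fun p : Bool × Bool => p.1 || p.2)).comp
      (f := fun p : Cfg × Cfg => (p.1 v, p.2 v)) (by fun_prop)

/-- Stochastic monotonicity of the Bernoulli fields. -/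
lemma nu_mono {q p : ℝ} (hq0 : 0 ≤ q) (hq1 : q < 1) (hqp : q ≤ p) (hp : p ≤ 1) {A : Set Cfg}
    (hA : MeasurableSet A) (uA : IsUpperSet A) : nu q A ≤ nu p A := by
  have h1 : 0 < 1 - q := by linarith
  have ha0 : 0 ≤ (p - q) / (1 - q) := div_nonneg (by linarith) h1.le
  have ha1 : (p - q) / (1 - q) ≤ 1 := by rw [div_le_one h1]; linarith
  have e : p = 1 - (1 - (p - q) / (1 - q)) * (1 - q) := by field_simp; ring
  rw [e, ← map_or ha0 ha1 hq0 hq1.le, Measure.map_apply measurable_or hA]
  calc nu q A = ((nu ((p - q) / (1 - q))).prod (nu q)) (univ ×ˢ A) := by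
        rw [Measure.prod_prod]; simp
    _ ≤ _ := by
      refine measure_mono fun x hx => uA (fun v => ?_) hx.2
      show x.2 v ≤ (x.1 v || x.2 v)
      cases x.1 v <;> cases x.2 v <;> simp

/-- Flip symmetry of the uniform measure. -/
lemma pi0_map_not : pi0.map (fun b v => !b v) = pi0 := by
  unfold pi0 nu
  rw [Measure.infinitePi_map_pi _ (f := fun _ (c : Bool) => !c) (fun _ => measurable_of_countable _)]
  congr 1
  funext _
  apply Measure.ext_of_singleton
  intro x
  rw [Measure.map_apply (measurable_of_countable _) (measurableSet_singleton _)]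
  have : (fun c : Bool => !c) ⁻¹' {x} = {!x} := by ext y; cases x <;> cases y <;> simp
  rw [this, ber_half, ber_half]

end Pool.Agent.MP_887f27_pr.H69
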