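import Pool.Agent.MP_887f27_pr.H69.Spec

/-! Basic properties of the process. -/

namespace Pool.Agent.MP_887f27_pr.H69

open MeasureTheory ProbabilityTheory Set Filter
open scoped ENNReal

/-! Ring counts. -/

lemma tm_lt_of_lt_cnt {ξ : ℕ → ℝ} {t : ℝ} {n : ℕ} (h : n < cnt ξ t) : tm ξ n < t :=
  not_le.1 (Nat.notMem_of_lt_sInf h)

lemma cnt_le_of_le_tm {ξ : ℕ → ℝ} {t : ℝ} {n : ℕ} (h : t ≤ tm ξ n) : cnt ξ t ≤ n :=
  Nat.sInf_le h

lemma le_tm_cnt {ξ : ℕ → ℝ} {t : ℝ} (h : ∃ n, t ≤ tm ξ n) : t ≤ tm ξ (cnt ξ t) :=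
  Nat.sInf_mem h

lemma tm_pred_lt {ξ : ℕ → ℝ} {t : ℝ} (h : cnt ξ t ≠ 0) : tm ξ (cnt ξ t - 1) < t :=
  tm_lt_of_lt_cnt (by omega)

lemma tm_zero (ξ : ℕ → ℝ) : tm ξ 0 = ξ 0 := by simp [tm]

lemma tm_succ (ξ : ℕ → ℝ) (n : ℕ) : tm ξ (n + 1) = tm ξ n + ξ (n + 1) := by
  simp [tm, Finset.sum_range_succ]

lemma tm_strictMono {ξ : ℕ → ℝ} (h : ∀ n, 0 < ξ n) : StrictMono (tm ξ) :=
  strictMono_nat_of_lt_succ fun n => by rw [tm_succ]; linarith [h (n + 1)]

lemma tm_pos {ξ : ℕ → ℝ} (h : ∀ n, 0 < ξ n) (n : ℕ) : 0 < tm ξ n :=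
  lt_of_lt_of_le (by rw [tm_zero]; exact h 0) ((tm_strictMono h).monotone (Nat.zero_le n))

lemma lt_cnt_iff {ξ : ℕ → ℝ} (h : ∀ n, 0 < ξ n) {t : ℝ} (ht : ∃ n, t ≤ tm ξ n) {n : ℕ} :
    n < cnt ξ t ↔ tm ξ n < t :=
  ⟨tm_lt_of_lt_cnt, fun a => (tm_strictMono h).lt_iff_lt.1 (a.trans_le (le_tm_cnt ht))⟩

lemma cnt_mono {ξ : ℕ → ℝ} {s t : ℝ} (ht : ∃ n, t ≤ tm ξ n) (hst : s ≤ t) : cnt ξ s ≤ cnt ξ t :=
  cnt_le_of_le_tm (hst.trans (le_tm_cnt ht))

lemma cnt_eq_of {ξ : ℕ → ℝ} {t : ℝ} {n : ℕ} (h1 : t ≤ tm ξ n) (h2 : ∀ m, m < n → tm ξ m < t) :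
    cnt ξ t = n :=
  le_antisymm (cnt_le_of_le_tm h1) (by
    by_contra hc
    exact absurd (le_tm_cnt ⟨n, h1⟩) (not_le.2 (h2 _ (not_le.1 hc))))

lemma cnt_tm {ξ : ℕ → ℝ} (h : ∀ n, 0 < ξ n) (n : ℕ) : cnt ξ (tm ξ n) = n :=
  cnt_eq_of le_rfl fun _ hm => tm_strictMono h hm

lemma cnt_nonpos {ξ : ℕ → ℝ} (h : ∀ n, 0 < ξ n) {t : ℝ} (ht : t ≤ 0) : cnt ξ t = 0 :=
  Nat.le_zero.1 (cnt_le_of_le_tm (ht.trans (tm_pos h 0).le))

/-! Measurability. -/

lemma measurable_tm (n : ℕ) : Measurable fun ξ : ℕ → ℝ => tm ξ n := by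
  unfold tm; fun_prop

lemma measurable_cnt : Measurable fun p : (ℕ → ℝ) × ℝ => cnt p.1 p.2 := by
  have hm : ∀ n, Measurable fun p : (ℕ → ℝ) × ℝ => p.2 ≤ tm p.1 n := fun n =>
    measurableSet_setOfPred.1 (measurableSet_le measurable_snd ((measurable_tm n).comp measurable_fst))
  refine measurable_to_countable' fun n => ?_
  have : (fun p : (ℕ → ℝ) × ℝ => cnt p.1 p.2) ⁻¹' {n} =
      {p | (p.2 ≤ tm p.1 n ∧ ∀ m, m < n → ¬ p.2 ≤ tm p.1 m) ∨ (n = 0 ∧ ∀ m, ¬ p.2 ≤ tm p.1 m)} := by
    ext p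
    simp only [mem_preimage, mem_singleton_iff, mem_ofPred_eq]
    constructor
    · intro h
      by_cases he : ∃ m, p.2 ≤ tm p.1 m
      · left; subst h
        exact ⟨le_tm_cnt he, fun m hm => not_le.2 (tm_lt_of_lt_cnt hm)⟩
      · right
        push Not at he
        refine ⟨?_, fun m => not_le.2 (he m)⟩
        rw [← h, cnt, Nat.sInf_eq_zero]
        right
        exact eq_empty_of_forall_notMem fun m => not_le.2 (he m)
    · rintro (⟨h1, h2⟩ | ⟨h1, h2⟩)
      · exact cnt_eq_of h1 fun m hm => not_le.1 (h2 m hm)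
      · rw [h1, cnt, Nat.sInf_eq_zero]
        right
        exact eq_empty_of_forall_notMem h2
  rw [this]
  exact measurableSet_setOfPred.2 (((hm n).and (Measurable.forall fun m =>
    measurable_const.imp (hm m).not)).or (measurable_const.and (Measurable.forall fun m =>
      (hm m).not)))

/-- Evaluation of a measurable family at a measurable countable index. -/
lemma measurable_at_index {α β ι : Type} [MeasurableSpace α] [MeasurableSpace β] [Countable ι]
    [MeasurableSpace ι] [MeasurableSingletonClass ι] {f : ι → α → β} (hf : ∀ i, Measurable (f i))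
    {k : α → ι} (hk : Measurable k) : Measurable fun a => f (k a) a := by
  have : Measurable fun p : α × ι => f p.2 p.1 := measurable_from_prod_countable_left hf
  exact this.comp (measurable_id.prodMk hk)

lemma measurable_cntO (v : V) : Measurable fun p : Om × ℝ => cnt (p.1.1.1 v) p.2 :=
  measurable_cnt.comp (f := fun p : Om × ℝ => (p.1.1.1 v, p.2)) (by fun_prop)

lemma measurable_rule (r : Rule) : Measurable fun p : Dir × (Dir → Bool) => r p.1 p.2 :=
  measurable_of_countable _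

lemma measurable_val (r : Rule) :
    ∀ D v, Measurable fun p : Om × ℝ => val r p.1 D v p.2
  | 0, v => by simp only [val]; fun_prop
  | D + 1, v => by
    simp only [val]
    have h : ∀ n : ℕ, Measurable fun p : Om × ℝ => if n = 0 then p.1.2 v
        else r (p.1.1.2 (v, n - 1)) (fun d => val r p.1 D (v * g d) (tm (p.1.1.1 v) (n - 1))) := by
      intro n
      by_cases hn : n = 0
      · simp only [hn, if_true]; fun_prop
      · simp only [hn, if_false]
        refine (measurable_rule r).comp (f := fun p : Om × ℝ => (p.1.1.2 (v, n - 1),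
          fun d => val r p.1 D (v * g d) (tm (p.1.1.1 v) (n - 1)))) ?_
        refine Measurable.prodMk (by fun_prop) (measurable_pi_lambda _ fun d => ?_)
        exact (measurable_val r D (v * g d)).comp
          (f := fun p : Om × ℝ => (p.1, tm (p.1.1.1 v) (n - 1)))
          (measurable_fst.prodMk ((measurable_tm _).comp (by fun_prop)))
    exact measurable_at_index h (measurable_cntO v)

lemma measurable_Ok : ∀ D v, Measurable fun p : Clk × ℝ => Ok p.1 D v p.2
  | 0, _ => by simp only [Ok]; exact measurable_const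
  | D + 1, v => by
    simp only [Ok]
    have h : ∀ n : ℕ, Measurable fun p : Clk × ℝ =>
        n = 0 ∨ ∀ d, Ok p.1 D (v * g d) (tm (p.1 v) (n - 1)) := fun n =>
      measurable_const.or (Measurable.forall fun d => (measurable_Ok D (v * g d)).comp
        (f := fun p : Clk × ℝ => (p.1, tm (p.1 v) (n - 1)))
        (measurable_fst.prodMk ((measurable_tm _).comp (by fun_prop))))
    exact measurable_at_index h
      (measurable_cnt.comp (f := fun p : Clk × ℝ => (p.1 v, p.2)) (by fun_prop))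

lemma measurable_valI (r : Rule) (v : V) : Measurable fun p : Om × ℝ => valI r p.1 v p.2 := by
  classical
  refine measurable_to_bool ?_
  have : (fun p : Om × ℝ => valI r p.1 v p.2) ⁻¹' {true} =
      {p | ∃ D, Ok p.1.1.1 D v p.2 ∧ val r p.1 D v p.2 = true} := by
    ext p; simp [valI]
  rw [this]
  exact measurableSet_setOfPred.2 (Measurable.exists fun D =>
    ((measurable_Ok D v).comp (f := fun p : Om × ℝ => (p.1.1.1, p.2)) (by fun_prop)).and
      (measurableSet_setOfPred.1 (measurable_val r D v (measurableSet_singleton true))))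

lemma measurable_cfgD (r : Rule) (D : ℕ) (t : ℝ) : Measurable (cfgD r D t) :=
  measurable_pi_lambda _ fun v =>
    (measurable_val r D v).comp (f := fun ω : Om => (ω, t)) (by fun_prop)

lemma measurable_cfgI (r : Rule) (t : ℝ) : Measurable (cfgI r t) :=
  measurable_pi_lambda _ fun v =>
    (measurable_valI r v).comp (f := fun ω : Om => (ω, t)) (by fun_prop)

instance (r : Rule) (q : ℝ) (D : ℕ) (t : ℝ) : IsProbabilityMeasure (lawD r q D t) :=
  Measure.isProbabilityMeasure_map (measurable_cfgD r D t).aemeasurable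

instance (r : Rule) (q t : ℝ) : IsProbabilityMeasure (lawI r q t) :=
  Measure.isProbabilityMeasure_map (measurable_cfgI r t).aemeasurable

lemma lawD_apply (r : Rule) (q : ℝ) (D : ℕ) (t : ℝ) {A : Set Cfg} (hA : MeasurableSet A) :
    lawD r q D t A = PP q {ω | cfgD r D t ω ∈ A} := Measure.map_apply (measurable_cfgD r D t) hA

lemma lawI_apply (r : Rule) (q t : ℝ) {A : Set Cfg} (hA : MeasurableSet A) :
    lawI r q t A = PP q {ω | cfgI r t ω ∈ A} := Measure.map_apply (measurable_cfgI r t) hA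

lemma lawD_real (r : Rule) (q : ℝ) (D : ℕ) (t : ℝ) {A : Set Cfg} (hA : MeasurableSet A) :
    (lawD r q D t).real A = (PP q).real {ω | cfgD r D t ω ∈ A} := by
  rw [measureReal_def, lawD_apply r q D t hA, measureReal_def]

lemma lawI_real (r : Rule) (q t : ℝ) {A : Set Cfg} (hA : MeasurableSet A) :
    (lawI r q t).real A = (PP q).real {ω | cfgI r t ω ∈ A} := by
  rw [measureReal_def, lawI_apply r q t hA, measureReal_def]

/-! Shifts. -/

lemma val_shO (r : Rule) (u : V) (ω : Om) :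
    ∀ D v t, val r (shO u ω) D v t = val r ω D (u * v) t
  | 0, _, _ => rfl
  | D + 1, v, t => by
    simp only [val, val_shO r u ω D, mul_assoc]
    rfl

lemma Ok_sh (u : V) (ξ : Clk) : ∀ D v t, Ok (sh u ξ) D v t ↔ Ok ξ D (u * v) t
  | 0, _, _ => Iff.rfl
  | D + 1, v, t => by
    simp only [Ok, Ok_sh u ξ D, mul_assoc]
    rfl

lemma valI_shO (r : Rule) (u : V) (ω : Om) (v : V) (t : ℝ) :
    valI r (shO u ω) v t = valI r ω (u * v) t := by
  unfold valI
  congr 1
  exact propext (exists_congr fun D => and_congr (Ok_sh u ω.1.1 D v t) (by rw [val_shO]))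

lemma cfgD_shO (r : Rule) (D : ℕ) (t : ℝ) (u : V) (ω : Om) :
    cfgD r D t (shO u ω) = sh u (cfgD r D t ω) := funext fun v => val_shO r u ω D v t

lemma cfgI_shO (r : Rule) (t : ℝ) (u : V) (ω : Om) :
    cfgI r t (shO u ω) = sh u (cfgI r t ω) := funext fun v => valI_shO r u ω v t

lemma mp_sh_muC (u : V) : MeasurePreserving (sh u) muC muC :=
  ⟨measurable_sh u, Measure.map_infinitePi_infinitePi_of_inj (P := fun _ => mu1)
    (f := fun v => u * v) (mul_right_injective u)⟩

lemma mp_sh_muM (u : V) :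
    MeasurePreserving (fun (m : Mrk) (i : V × ℕ) => m (u * i.1, i.2)) muM muM :=
  ⟨by fun_prop, Measure.map_infinitePi_infinitePi_of_inj
    (P := fun _ => uniformOn (univ : Set Dir)) (f := fun i : V × ℕ => (u * i.1, i.2))
    (fun a b h => by
      obtain ⟨h1, h2⟩ := Prod.mk.inj h
      exact Prod.ext (mul_left_cancel h1) h2)⟩

lemma mp_shO (q : ℝ) (u : V) : MeasurePreserving (shO u) (PP q) (PP q) :=
  ((mp_sh_muC u).prod (mp_sh_muM u)).prod (inv_nu q u)

lemma inv_lawD (r : Rule) (q : ℝ) (D : ℕ) (t : ℝ) : Inv (lawD r q D t) := fun u =>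
  ⟨measurable_sh u, by
    unfold lawD
    rw [Measure.map_map (measurable_sh u) (measurable_cfgD r D t)]
    conv_rhs => rw [← (mp_shO q u).map_eq]
    rw [Measure.map_map (measurable_cfgD r D t) (mp_shO q u).measurable]
    congr 1
    funext ω
    exact (cfgD_shO r D t u ω).symm⟩

lemma inv_lawI (r : Rule) (q t : ℝ) : Inv (lawI r q t) := fun u =>
  ⟨measurable_sh u, by
    unfold lawI
    rw [Measure.map_map (measurable_sh u) (measurable_cfgI r t)]
    conv_rhs => rw [← (mp_shO q u).map_eq]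
    rw [Measure.map_map (measurable_cfgI r t) (mp_shO q u).measurable]
    congr 1
    funext ω
    exact (cfgI_shO r t u ω).symm⟩

/-! Stability in the fuel. -/

lemma Ok.succ {ξ : Clk} : ∀ {D v t}, Ok ξ D v t → Ok ξ (D + 1) v t
  | 0, _, _, h => h.elim
  | _ + 1, _, _, h => h.imp id fun a d => Ok.succ (a d)

lemma Ok.mono {ξ : Clk} {D D' : ℕ} {v : V} {t : ℝ} (h : Ok ξ D v t) (hD : D ≤ D') :
    Ok ξ D' v t := by
  induction hD with
  | refl => exact h
  | step _ ih => exact ih.succ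

lemma val_stable (r : Rule) (ω : Om) : ∀ {D D' v t}, Ok ω.1.1 D v t → D ≤ D' →
    val r ω D' v t = val r ω D v t
  | 0, _, _, _, h, _ => h.elim
  | D + 1, 0, _, _, _, hD => absurd hD (by omega)
  | D + 1, D' + 1, v, t, h, hD => by
    simp only [val]
    split_ifs with hc
    · rfl
    · congr 1
      funext d
      exact val_stable r ω ((h.resolve_left hc) d) (by omega)

lemma valI_eq (r : Rule) (ω : Om) {D : ℕ} {v : V} {t : ℝ} (h : Ok ω.1.1 D v t) :
    valI r ω v t = val r ω D v t := by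
  unfold valI
  cases hv : val r ω D v t
  · simp only [decide_eq_false_iff_not, not_exists, not_and]
    intro D' h' hv'
    have e1 := val_stable r ω h (le_max_left D D')
    have e2 := val_stable r ω h' (le_max_right D D')
    rw [e1, hv, hv'] at e2
    exact absurd e2 (by simp)
  · simp only [decide_eq_true_eq]
    exact ⟨D, h, hv⟩

/-- The recursion satisfied by the process. -/
lemma valI_rec (r : Rule) (ω : Om) {v : V} {t : ℝ} (h : ∃ D, Ok ω.1.1 D v t) :
    valI r ω v t = if cnt (ω.1.1 v) t = 0 then ω.2 v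
      else r (ω.1.2 (v, cnt (ω.1.1 v) t - 1))
        (fun d => valI r ω (v * g d) (tm (ω.1.1 v) (cnt (ω.1.1 v) t - 1))) := by
  obtain ⟨D, hD⟩ := h
  rw [valI_eq r ω hD]
  cases D with
  | zero => exact hD.elim
  | succ D =>
    simp only [val]
    split_ifs with hc
    · rfl
    · congr 1
      funext d
      exact (valI_eq r ω ((hD.resolve_left hc) d)).symm

lemma valI_congr_cnt (r : Rule) (ω : Om) {v : V} {s t : ℝ}
    (h : cnt (ω.1.1 v) s = cnt (ω.1.1 v) t) : valI r ω v s = valI r ω v t := by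
  unfold valI
  congr 1
  refine propext (exists_congr fun D => ?_)
  cases D with
  | zero => simp [Ok]
  | succ D => simp only [Ok, val, h]

/-- Value just after ring number `n`. -/
lemma valI_succ (r : Rule) {ω : Om} (hG : Good ω.1.1) {v : V} {t : ℝ} {n : ℕ}
    (h : cnt (ω.1.1 v) t = n + 1) :
    valI r ω v t = r (ω.1.2 (v, n)) (fun d => valI r ω (v * g d) (tm (ω.1.1 v) n)) := by
  rw [valI_rec r ω (hG.2.2.2.2 v t), h]
  simp

lemma valI_zero (r : Rule) {ω : Om} {v : V} {t : ℝ} (h : cnt (ω.1.1 v) t = 0) :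
    valI r ω v t = ω.2 v := by
  rw [valI_rec r ω ⟨1, Or.inl h⟩, if_pos h]

/-! Locality. -/

lemma val_local (r : Rule) : ∀ D v, ∃ H : Finset V, ∀ (ω ω' : Om) (t : ℝ),
    (∀ w ∈ H, ω.1.1 w = ω'.1.1 w ∧ (∀ n, ω.1.2 (w, n) = ω'.1.2 (w, n)) ∧ ω.2 w = ω'.2 w) →
    val r ω D v t = val r ω' D v t
  | 0, v => ⟨{v}, fun _ _ _ h => (h v (by simp)).2.2⟩
  | D + 1, v => by
    classical
    choose H hH using fun d => val_local r D (v * g d)
    refine ⟨insert v (Finset.univ.biUnion H), fun ω ω' t h => ?_⟩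
    obtain ⟨h1, h2, h3⟩ := h v (by simp)
    simp only [val, h1, h2, h3]
    congr 2
    funext d
    exact hH d ω ω' _ fun w hw => h w (by
      simp only [Finset.mem_insert, Finset.mem_biUnion, Finset.mem_univ, true_and]
      exact Or.inr ⟨d, hw⟩)

/-- A local event of the truncated configuration depends on finitely many sites. -/
lemma cfgD_local (r : Rule) (D : ℕ) {A : Set Cfg} (hA : Loc A) : ∃ H : Finset V,
    ∀ (ω ω' : Om) (t : ℝ),
    (∀ w ∈ H, ω.1.1 w = ω'.1.1 w ∧ (∀ n, ω.1.2 (w, n) = ω'.1.2 (w, n)) ∧ ω.2 w = ω'.2 w) →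
    cfgD r D t ω ∈ A → cfgD r D t ω' ∈ A := by
  classical
  obtain ⟨H₀, hH₀⟩ := hA
  choose H hH using val_local r D
  refine ⟨H₀.biUnion H, fun ω ω' t h => hH₀ _ _ fun v hv => hH v ω ω' t fun w hw => h w ?_⟩
  exact Finset.mem_biUnion.2 ⟨v, hv, hw⟩

/-- The two samples agree before time `k`. -/
def Past (ω ω' : Om) (k : ℝ) : Prop :=
  ω.2 = ω'.2 ∧ ∀ w s, s ≤ k → cnt (ω.1.1 w) s = cnt (ω'.1.1 w) s ∧
    ∀ n, n < cnt (ω.1.1 w) s → tm (ω.1.1 w) n = tm (ω'.1.1 w) n ∧ ω.1.2 (w, n) = ω'.1.2 (w, n)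

lemma Past.val_Ok {ω ω' : Om} {k : ℝ} (h : Past ω ω' k) (r : Rule) : ∀ D v t, t ≤ k →
    val r ω D v t = val r ω' D v t ∧ (Ok ω.1.1 D v t ↔ Ok ω'.1.1 D v t)
  | 0, v, _, _ => ⟨by simp only [val, h.1], Iff.rfl⟩
  | D + 1, v, t, ht => by
    obtain ⟨h1, h2⟩ := h.2 v t ht
    by_cases hc : cnt (ω.1.1 v) t = 0
    · simp only [val, Ok, ← h1, hc, if_true, h.1, true_or, and_self]
    · obtain ⟨h3, h4⟩ := h2 (cnt (ω.1.1 v) t - 1) (by omega)
      have h5 : tm (ω.1.1 v) (cnt (ω.1.1 v) t - 1) ≤ k := (tm_pred_lt hc).le.trans ht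
      simp only [val, Ok, ← h1, hc, if_false, ← h3, ← h4, false_or]
      refine ⟨?_, forall_congr' fun d => (Past.val_Ok h r D _ _ h5).2⟩
      congr 1
      funext d
      exact (Past.val_Ok h r D _ _ h5).1

lemma Past.valI {ω ω' : Om} {k : ℝ} (h : Past ω ω' k) (r : Rule) (v : V) {t : ℝ} (ht : t ≤ k) :
    valI r ω v t = valI r ω' v t := by
  unfold H69.valI
  congr 1
  refine propext (exists_congr fun D => ?_)
  rw [(h.val_Ok r D v t ht).1, (h.val_Ok r D v t ht).2]

/-- Marks of rings at time `t` or later do not matter before time `t`. -/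
lemma valI_marks (r : Rule) (ξ : Clk) (m m' : Mrk) (x : Cfg) (v : V) (t : ℝ)
    (h : ∀ w n, tm (ξ w) n < t → m (w, n) = m' (w, n)) :
    valI r ((ξ, m), x) v t = valI r ((ξ, m'), x) v t :=
  Past.valI (ω := ((ξ, m), x)) (ω' := ((ξ, m'), x)) (k := t) ⟨rfl, fun w _ hs => ⟨rfl, fun n hn =>
    ⟨rfl, h w n ((tm_lt_of_lt_cnt hn).trans_le hs)⟩⟩⟩ r v le_rfl

/-! Monotonicity and symmetry. -/

/-- Monotone rules. -/
def Mono (r : Rule) : Prop := ∀ δ y y', (∀ d, y d ≤ y' d) → r δ y ≤ r δ y'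

lemma mono_rI : Mono rI := by
  unfold Mono rI
  decide +kernel

lemma mono_rC : Mono rC := by
  unfold Mono rC
  decide +kernel

lemma rI_not : ∀ (δ : Dir) (y : Dir → Bool), rI δ (fun d => !y d) = !rI δ y := by
  unfold rI
  decide +kernel

lemma rI_three {δ : Dir} {y : Dir → Bool} {s : Bool} (h : Three fun d => y d = s) : rI δ y = s := by
  rw [three_iff] at h
  revert δ y s
  unfold rI
  decide +kernel

lemma rC_three {δ : Dir} {y : Dir → Bool} {s : Bool} (h : Three fun d => y d = s) : rC δ y = s := by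
  rw [three_iff] at h
  revert δ y s
  unfold rC
  decide +kernel

lemma rI_two {e : Dir} {y : Dir → Bool} {s : Bool} (h : Two e fun d => y d = s) :
    rI (rev e) y = s := by
  unfold Two at h
  revert e y s
  unfold rI
  decide +kernel

lemma val_mono {r : Rule} (hr : Mono r) (θ : Clk × Mrk) {x x' : Cfg} (h : x ≤ x') :
    ∀ D v t, val r (θ, x) D v t ≤ val r (θ, x') D v t
  | 0, v, _ => h v
  | D + 1, v, t => by
    simp only [val]
    split_ifs
    · exact h v
    · exact hr _ _ _ fun d => val_mono hr θ h D _ _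

lemma valI_mono {r : Rule} (hr : Mono r) (θ : Clk × Mrk) {x x' : Cfg} (h : x ≤ x') (v : V)
    (t : ℝ) : valI r (θ, x) v t ≤ valI r (θ, x') v t := by
  unfold valI
  rw [Bool.le_iff_imp]
  simp only [decide_eq_true_eq]
  rintro ⟨D, h1, h2⟩
  exact ⟨D, h1, Bool.le_iff_imp.1 (val_mono hr θ h D v t) h2⟩

lemma val_not (θ : Clk × Mrk) (x : Cfg) :
    ∀ D v t, val rI (θ, fun w => !x w) D v t = !val rI (θ, x) D v t
  | 0, _, _ => rfl
  | D + 1, v, t => by
    simp only [val]
    split_ifs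
    · rfl
    · rw [← rI_not]
      congr 1
      funext d
      exact val_not θ x D _ _

lemma sgn_false_anti {x x' : Cfg} (h : x ≤ x') : sgn false x' ⊆ sgn false x := by
  intro v hv
  have := h v
  simp only [sgn, mem_ofPred_eq] at hv ⊢
  rw [hv] at this
  exact le_bot_iff.1 this

lemma sgn_true_mono {x x' : Cfg} (h : x ≤ x') : sgn true x ⊆ sgn true x' := by
  intro v hv
  have := h v
  simp only [sgn, mem_ofPred_eq] at hv ⊢
  rw [hv] at this
  exact top_le_iff.1 this

lemma KX_anti (θ : Clk × Mrk) (D k R : ℕ) {x x' : Cfg} (h : x ≤ x') :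
    KX θ D k R x' ⊆ KX θ D k R x :=
  core_mono (sgn_false_anti fun v => val_mono mono_rI θ h D v k) R

lemma ms_KX (D k R : ℕ) (y : V) : MeasurableSet {ω : Om | y ∈ KX ω.1 D k R ω.2} :=
  measurable_cfgD rI D k (loc_core (loc_sgn false) R y).measurableSet

lemma le_or (S b : Cfg) : b ≤ fun v => (S v || b v) := fun v => by
  show b v ≤ (S v || b v)
  cases S v <;> cases b v <;> simp

/-- With a forced plus set the quenched probability of a minus spin is at most one half. -/
lemma half_quenched (θ : Clk × Mrk) (S : Cfg) (D : ℕ) (y : V) (t : ℝ) :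
    pi0 {b | val rI (θ, fun v => (S v || b v)) D y t = false} ≤ 1 / 2 := by
  have hm : Measurable fun b : Cfg => val rI (θ, b) D y t :=
    (measurable_val rI D y).comp (f := fun b : Cfg => ((θ, b), t)) (by fun_prop)
  have mA : MeasurableSet {b : Cfg | val rI (θ, b) D y t = false} :=
    hm (measurableSet_singleton false)
  have h1 : pi0 {b | val rI (θ, b) D y t = false} = pi0 {b | val rI (θ, b) D y t = false}ᶜ := by
    conv_lhs => rw [← pi0_map_not]
    rw [Measure.map_apply (by fun_prop) mA]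
    congr 1
    ext b
    simp only [mem_preimage, mem_ofPred_eq, val_not, mem_compl_iff]
    cases val rI (θ, b) D y t <;> simp
  have h2 : pi0 {b | val rI (θ, b) D y t = false} ≤ 1 / 2 := by
    have := prob_add_prob_compl (μ := pi0) mA
    rw [← h1, ← two_mul] at this
    rw [ENNReal.le_div_iff_mul_le (by simp) (by simp), mul_comm, this]
  refine le_trans (measure_mono fun b hb => ?_) h2
  have := val_mono mono_rI θ (le_or S b) D y t
  simp only [mem_ofPred_eq] at hb ⊢
  rw [hb] at this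
  exact le_bot_iff.1 this

/-- The sample with density `(1 + η) / 2` from a forced set and fair bits. -/
lemma PP_eq_map {η : ℝ} (h0 : 0 ≤ η) (h1 : η ≤ 1) :
    ((PP η).prod pi0).map (fun p => (p.1.1, fun v => (p.1.2 v || p.2 v))) = PP ((1 + η) / 2) := by
  have e : (1 + η) / 2 = 1 - (1 - η) * (1 - 1 / 2) := by ring
  unfold PP
  rw [e, ← map_or h0 h1 (by norm_num) (by norm_num), ← Measure.map_id (μ := muC.prod muM),
    Measure.map_prod_map _ _ measurable_id measurable_or, Measure.map_id,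
    ← Measure.prodAssoc_prod, Measure.map_map (measurable_id.prodMap measurable_or)
      (MeasurableEquiv.measurable _)]
  rfl

lemma measurable_orO : Measurable fun p : Om × Cfg =>
    ((p.1.1, fun v => (p.1.2 v || p.2 v)) : Om) :=
  Measurable.prodMk (by fun_prop)
    (measurable_or.comp (f := fun p : Om × Cfg => (p.1.2, p.2)) (by fun_prop))

/-! Approximation by the truncated process. -/

lemma ae_good (hG : GoodAE) (q : ℝ) : ∀ᵐ ω ∂PP q, Good ω.1.1 :=
  (Measure.quasiMeasurePreserving_fst.comp Measure.quasiMeasurePreserving_fst).ae hG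

lemma PP_clk (q : ℝ) {E : Set Clk} (hE : MeasurableSet E) : PP q {ω | ω.1.1 ∈ E} = muC E := by
  have : MeasurePreserving (fun ω : Om => ω.1.1) (PP q) muC :=
    measurePreserving_fst.comp measurePreserving_fst
  exact this.measure_preimage hE.nullMeasurableSet

lemma approx (hG : GoodAE) (t : ℝ) {A : Set Cfg} (hA : Loc A) {ε : ℝ} (hε : 0 < ε) :
    ∀ᶠ D in atTop, ∀ (r : Rule) (q : ℝ), |(lawD r q D t).real A - (lawI r q t).real A| ≤ ε := by
  have mA := hA.measurableSet
  obtain ⟨H, hH⟩ := hA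
  have mE : ∀ D, MeasurableSet {ξ : Clk | ¬ ∀ v ∈ H, Ok ξ D v t} := fun D =>
    measurableSet_setOfPred.2 (Measurable.forall fun v => measurable_const.imp
      ((measurable_Ok D v).comp (f := fun ξ : Clk => (ξ, t)) (by fun_prop))).not
  have hlim : Tendsto (fun D => muC {ξ : Clk | ¬ ∀ v ∈ H, Ok ξ D v t}) atTop
      (nhds (muC ∅)) := by
    refine tendsto_measure_of_ae_tendsto_indicator_of_isFiniteMeasure atTop MeasurableSet.empty mE ?_
    filter_upwards [hG] with ξ hξ
    have : ∀ᶠ D in atTop, ∀ v ∈ H, Ok ξ D v t := by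
      rw [Filter.eventually_all_finset]
      intro v _
      obtain ⟨D, hD⟩ := hξ.2.2.2.2 v t
      exact (eventually_ge_atTop D).mono fun D' h => hD.mono h
    exact this.mono fun D h => by simpa using h
  rw [measure_empty] at hlim
  have hlim' := (ENNReal.tendsto_toReal ENNReal.zero_ne_top).comp hlim
  filter_upwards [hlim'.eventually (ge_mem_nhds hε)] with D hD r q
  rw [lawD_real r q D t mA, lawI_real r q t mA]
  refine (abs_measureReal_sub_le_measureReal_symmDiff
    (measurable_cfgD r D t mA).nullMeasurableSet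
    (measurable_cfgI r t mA).nullMeasurableSet).trans ?_
  refine le_trans ?_ hD
  simp only [Function.comp]
  rw [← PP_clk q (mE D), ← measureReal_def]
  refine measureReal_mono (fun ω hω hc => ?_) (measure_ne_top _ _)
  have e : ∀ v ∈ (H : Set V), cfgD r D t ω v = cfgI r t ω v := fun v hv =>
    (valI_eq r ω (hc v hv)).symm
  rcases hω with ⟨h1, h2⟩ | ⟨h1, h2⟩
  · exact h2 (hH _ _ e h1)
  · exact h2 (hH _ _ (fun v hv => (e v hv).symm) h1)

end Pool.Agent.MP_887f27_pr.H69
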