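import Pool.Agent.MP_887f27_pr.H69.PiInd

/-! Statements of the modules of the proof. -/

namespace Pool.Agent.MP_887f27_pr.H69

open MeasureTheory ProbabilityTheory Set
open scoped ENNReal symmDiff

/-- Junta lemma of Friedgut. -/
def JuntaStmt : Prop :=
  ∀ (M ε : ℝ≥0∞), M ≠ ⊤ → ε ≠ 0 → ∃ s : ℕ, ∀ A : Set Cfg, Loc A →
    ∑' h : V, pi0 {b | ¬ (Function.update b h false ∈ A ↔ Function.update b h true ∈ A)} ≤ M →
    ∃ J : Finset V, J.card ≤ s ∧ ∃ B : Set Cfg, MP_77ae5d_pr.H74.Dep B (J : Set V) ∧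
      pi0 (A ∆ B) ≤ ε

/-- The limit object does not exist. -/
def AbstractStmt : Prop :=
  ∀ K : Cfg → Set V, (∀ y, MeasurableSet {b | y ∈ K b}) → (∀ b b', b ≤ b' → K b' ⊆ K b) →
    (∀ y, pi0 {b | y ∈ K b} ≤ 1 / 2) → pi0 {b | 1 ∈ K b} ≠ 0 →
    (∀ᵐ b ∂pi0, (∀ y, Deg (K b) y) ∧ ∀ Y, Clos (K b) Y) →
    (∀ h y, ¬ Three fun d => ∃ r e, Desc r (y, d) e ∧ pi0 {b | Ray (F K h b) e.1 e.2} ≠ 0) →
    False

/-- No approximating sequence exists. -/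
def NoSeqStmt : Prop :=
  ∀ (K Err : ℕ → Cfg → Set V) (c : ℝ≥0∞), c ≠ 0 → (∀ n y, Loc {b | y ∈ K n b}) →
    (∀ n y, MeasurableSet {b | y ∈ Err n b}) → (∀ n b b', b ≤ b' → K n b' ⊆ K n b) →
    (∀ n y, pi0 {b | y ∈ K n b} ≤ 1 / 2) → (∀ n, c ≤ pi0 {b | 1 ∈ K n b}) →
    (∀ y, ∑' n, pi0 {b | y ∈ Err n b} ≠ ⊤) →
    (∀ n b y, y ∉ Err n b → Deg (K n b) y) →
    (∀ Y : Finset V, ∃ n₀, ∀ n, n₀ ≤ n → ∀ b, (∀ w ∈ Y, w ∉ Err n b) → Clos (K n b) Y) →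
    (∀ y, ∃ M, M ≠ ⊤ ∧ ∀ n, ∑' h : V, pi0 {b | y ∈ F (K n) h b} ≤ M) →
    (∀ y k r, ∃ l, ∀ n h, ¬ Trif (K n) h y k r l) → False

/-- Passage to the limit. -/
def LimitStmt : Prop := JuntaStmt → AbstractStmt → NoSeqStmt

/-- Counting trifurcations of a set of vertices. -/
def CountStmt : Prop :=
  ∀ (r l : ℕ) (U : Set V),
    (l : ℝ≥0∞) * sz {y | Three fun d => ∃ e, Desc r (y, d) e ∧ Path U l e.1 e.2} ≤
      2 * 5 ^ (r + 1) * sz U

/-- Selection of a good environment. -/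
def SelStmt : Prop :=
  ∀ (c M : ℝ≥0∞), c ≠ 0 → M ≠ ⊤ → ∃ (My C : V → ℝ≥0∞) (l : V → ℕ → ℕ → ℕ),
    (∀ y, My y ≠ ⊤) ∧ (∀ y, C y ≠ ⊤) ∧
    ∀ (Q : Measure Om) [IsProbabilityMeasure Q] (K Err : Om → Cfg → Set V) (τ : ℝ≥0∞),
      τ ≠ 0 → τ ≠ ⊤ → (∀ u, MeasurePreserving (shO u) Q Q) →
      (∀ y, MeasurableSet {p : Om × Cfg | y ∈ K p.1 p.2}) →
      (∀ y, MeasurableSet {p : Om × Cfg | y ∈ Err p.1 p.2}) →
      (∀ u ω b y, y ∈ K (shO u ω) (sh u b) ↔ u * y ∈ K ω b) →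
      (∀ u ω b y, y ∈ Err (shO u ω) (sh u b) ↔ u * y ∈ Err ω b) →
      c ≤ (Q.prod pi0) {p | 1 ∈ K p.1 p.2} →
      ∑' h : V, (Q.prod pi0) {p | 1 ∈ F (K p.1) h p.2} ≤ M →
      (Q.prod pi0) {p | 1 ∈ Err p.1 p.2} ≤ τ →
      ∃ ω, c / 2 ≤ pi0 {b | 1 ∈ K ω b} ∧ (∀ y, ∑' h : V, pi0 {b | y ∈ F (K ω) h b} ≤ My y) ∧
        (∀ y, pi0 {b | y ∈ Err ω b} ≤ C y * τ) ∧ ∀ y k r h, ¬ Trif (K ω) h y k r (l y k r)

/-- Selection from counting. -/
def SelectStmt : Prop := CountStmt → SelStmt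

/-- Pruning the minus set keeps the boundary up to defects. -/
def S1Stmt : Prop :=
  ∀ (lam : Measure Cfg) [IsProbabilityMeasure lam], Inv lam → ∀ R : ℕ,
    bd lam ≤ 8 * lam.real {x | 1 ∈ Core (sgn false x) R} +
      8 * R * lam.real {x | Dfc (sgn true x) R 1}

/-- A small boundary gives a dense plus core. -/
def S2Stmt : Prop :=
  ∀ (lam : Measure Cfg) [IsProbabilityMeasure lam], Inv lam → Expanding lam →
    lam.real {x | x 1 = false} ≤ 1 / 2 → bd lam ≤ 1 / 5 → ∀ R : ℕ,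
    lam.real {x | 1 ∉ Core (sgn true x) R} ≤ 2 * bd lam

/-- Expansion for an event with finite range of dependence. -/
def X1Stmt : Prop :=
  ∀ (lam : Measure Cfg) [IsProbabilityMeasure lam], Inv lam → ∀ A : Set Cfg, MeasurableSet A →
    (∃ r, ∀ u, r < nrm u → lam.real {x | x ∈ A ∧ sh u x ∈ A} = lam.real A ^ 2) →
    1 / 2 * (lam.real A * (1 - lam.real A)) ≤ ∑ d : Dir, lam.real {x | x ∈ A ∧ sh (g d) x ∉ A}

/-- Formula of Russo with a passive environment. -/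
def RussoStmt : Prop :=
  ∀ (μ : Measure (Clk × Mrk)) [IsProbabilityMeasure μ] (H : Finset V) (A : Set Om),
    MeasurableSet A → (∀ θ, MP_77ae5d_pr.H74.Dep {x | (θ, x) ∈ A} (H : Set V)) →
    ∀ q ∈ Ioo (0 : ℝ) 1, HasDerivAt (fun s => (μ.prod (nu s)).real A)
      (∑ h ∈ H, ((μ.prod (nu q)).real {ω | (ω.1, Function.update ω.2 h true) ∈ A} -
        (μ.prod (nu q)).real {ω | (ω.1, Function.update ω.2 h false) ∈ A})) q

/-- Markov property of the clocks at a fixed time. -/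
def GlueStmt : Prop :=
  (∀ t, Measurable fun (p : Clk × Clk) (v : V) (n : ℕ) => glue n t (p.1 v) (p.2 v)) ∧
  (∀ t, Measurable fun (p : (ℕ → ℝ) × (ℕ → ℝ)) (n : ℕ) => glue n t p.1 p.2) ∧
  (∀ t, 0 ≤ t → (mu1.prod mu1).map (fun p n => glue n t p.1 p.2) = mu1) ∧
  (∀ t, 0 ≤ t → (muC.prod muC).map (fun p v n => glue n t (p.1 v) (p.2 v)) = muC) ∧
  (∀ t ξ ζ, (∃ n, t ≤ tm ξ n) →
    (∀ n, n < cnt ξ t → glue n t ξ ζ = ξ n) ∧
    (∀ n, n < cnt ξ t → tm (fun i => glue i t ξ ζ) n = tm ξ n) ∧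
    (∀ n, tm (fun i => glue i t ξ ζ) (cnt ξ t + n) = t + tm ζ n))

/-- Almost all clocks are good. -/
def GoodAE : Prop := ∀ᵐ ξ ∂muC, Good ξ

/-- Good clocks from the Markov property. -/
def GoodStmt : Prop := GlueStmt → GoodAE

/-- The first ring of the root after time `k` comes before time `k + 1` and lowers the energy. -/
def Low (k : ℕ) (ω : Om) : Prop :=
  tm (ω.1.1 1) (cnt (ω.1.1 1) k) < k + 1 ∧
    ∃ s, valI rI ω 1 k ≠ s ∧ Three fun d => valI rI ω (g d) (tm (ω.1.1 1) (cnt (ω.1.1 1) k)) = s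

/-- Energy bound. -/
def EnergyB : Prop := ∀ (q : ℝ) (N : ℕ), ∑ k ∈ Finset.range N, (PP q).real {ω | Low k ω} ≤ 1

/-- Energy bound from good clocks. -/
def EnergyStmt : Prop := GoodAE → EnergyB

/-- During `[k, k + 1)` the vertices of `B` selected by `S` ring once, the other vertices of `B`
do not ring, and the next marks on `B` are given by `δ`. -/
def Pat (B : Finset V) (δ : V → Dir) (S : Cfg → Set V) (k : ℕ) (ω : Om) : Prop :=
  ∀ w ∈ B, ω.1.2 (w, cnt (ω.1.1 w) k) = δ w ∧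
    (w ∈ S (cfgI rI k ω) → cnt (ω.1.1 w) ((k : ℝ) + 1) = cnt (ω.1.1 w) k + 1) ∧
    (w ∉ S (cfgI rI k ω) → cnt (ω.1.1 w) ((k : ℝ) + 1) = cnt (ω.1.1 w) k)

/-- Patterns have a positive conditional probability. -/
def PatternB : Prop :=
  ∀ B : Finset V, ∃ c : ℝ, 0 < c ∧ ∀ (δ : V → Dir) (S : Cfg → Set V),
    (∀ w, MeasurableSet {x | w ∈ S x}) → ∀ (q : ℝ) (k : ℕ) (E : Set Cfg), MeasurableSet E →
    c * (lawI rI q k).real E ≤ (PP q).real {ω | cfgI rI k ω ∈ E ∧ Pat B δ S k ω}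

/-- Patterns from the Markov property. -/
def PatternStmt : Prop := GlueStmt → GoodAE → PatternB

/-- Defects are summable. -/
def DefectB : Prop :=
  ∀ j : ℕ, ∃ C : ℝ, ∀ (q : ℝ) (s : Bool) (N : ℕ),
    ∑ k ∈ Finset.range N, (lawI rI q k).real {x | Dfc (sgn s x) j 1} ≤ C

/-- Defect bound from energy and patterns. -/
def DefectStmt : Prop := GoodAE → EnergyB → PatternB → DefectB

/-- The two rules give the same law. -/
def TransferB : Prop := ∀ q t : ℝ, lawI rC q t = lawI rI q t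

/-- Transfer from good clocks. -/
def TransferStmt : Prop := GoodAE → TransferB

/-- The laws of the process are expanding. -/
def ExpandStmt : Prop := GoodAE → X1Stmt → ∀ q t : ℝ, Expanding (lawI rI q t)

/-- Choice of the parameters. -/
def ParamB : Prop :=
  ∀ p ε : ℝ, 1 / 2 < p → p < 1 → 0 < ε →
    (∀ q ∈ Icc (1 / 2 : ℝ) p, ∀ k : ℕ, ε ≤ bd (lawI rI q k)) →
    ∀ (n : ℕ) (τ : ℝ), 0 < τ → ∃ q ∈ Icc (1 / 2 : ℝ) p, ∃ k R D : ℕ,
      ε / 32 ≤ (lawD rI q D k).real {x | 1 ∈ Core (sgn false x) R} ∧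
      ∑' h : V, PP q {ω | 1 ∈ F (KX ω.1 D k R) h ω.2} ≤ ENNReal.ofReal (3 / (p - 1 / 2)) ∧
      (lawD rI q D k).real {x | 1 ∈ ErrS n R x} ≤ τ

/-- Parameters from the other modules. -/
def ParamStmt : Prop := GoodAE → RussoStmt → S1Stmt → DefectB → ParamB

/-- The statement of the problem for a given density. -/
def Target (p : ℝ) : Prop :=
  ∀ (Ω : Type) [MeasurableSpace Ω] (P : Measure Ω) [IsProbabilityMeasure P]
    (X : FreeGroup (Fin 2) ⊕ (FreeGroup (Fin 2) × ℕ) ⊕ (FreeGroup (Fin 2) × ℕ) → Ω → ℝ)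
    (T : FreeGroup (Fin 2) → ℕ → Ω → ℝ)
    (σ : FreeGroup (Fin 2) → ℝ → Ω → ℝ),
    (∀ i, Measurable (X i)) →
    iIndepFun X P →
    (∀ v, P {ω | X (Sum.inl v) ω = 1} = ENNReal.ofReal p ∧
          P {ω | X (Sum.inl v) ω = -1} = ENNReal.ofReal (1 - p)) →
    (∀ v n (t : ℝ), 0 ≤ t →
          P {ω | t < X (Sum.inr (Sum.inl (v, n))) ω} = ENNReal.ofReal (Real.exp (-t))) →
    (∀ v n, P {ω | X (Sum.inr (Sum.inr (v, n))) ω = 1} = 1 / 2 ∧
          P {ω | X (Sum.inr (Sum.inr (v, n))) ω = -1} = 1 / 2) →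
    (∀ v n ω, T v n ω = ∑ k ∈ Finset.range (n + 1), X (Sum.inr (Sum.inl (v, k))) ω) →
    (∀ᵐ ω ∂P, ∀ v,
      (∀ t : ℝ, 0 ≤ t → t < T v 0 ω → σ v t ω = X (Sum.inl v) ω) ∧
      (∀ (n : ℕ) (t : ℝ), T v n ω ≤ t → t < T v (n + 1) ω →
        σ v t ω =
          (if 0 < ∑ i : Fin 2, (σ (v * FreeGroup.of i) (T v n ω) ω
                              + σ (v * (FreeGroup.of i)⁻¹) (T v n ω) ω) then 1
           else if ∑ i : Fin 2, (σ (v * FreeGroup.of i) (T v n ω) ω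
                              + σ (v * (FreeGroup.of i)⁻¹) (T v n ω) ω) < 0 then -1
           else X (Sum.inr (Sum.inr (v, n))) ω))) →
    ∀ᵐ ω ∂P, ∀ v, ∃ t₀ : ℝ, ∀ t, t₀ ≤ t → σ v t ω = 1

/-- The sample of the canonical model read from the variables of the problem. -/
noncomputable def readOm {Ω : Type} (X : V ⊕ (V × ℕ) ⊕ (V × ℕ) → Ω → ℝ) (ω : Ω) : Om :=
  ((fun v n => X (Sum.inr (Sum.inl (v, n))) ω,
    fun i => (0, decide (X (Sum.inr (Sum.inr i)) ω = 1))), fun v => decide (X (Sum.inl v) ω = 1))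

/-- Forget the first component of the marks. -/
def redOm (ω : Om) : Om := ((ω.1.1, fun i => (0, (ω.1.2 i).2)), ω.2)

/-- Law of the sample read from the variables of the problem. -/
def LawStmt : Prop :=
  ∀ (p : ℝ), 0 ≤ p → p ≤ 1 → ∀ (Ω : Type) [MeasurableSpace Ω] (P : Measure Ω)
    [IsProbabilityMeasure P] (X : V ⊕ (V × ℕ) ⊕ (V × ℕ) → Ω → ℝ),
    (∀ i, Measurable (X i)) → iIndepFun X P →
    (∀ v, P {ω | X (Sum.inl v) ω = 1} = ENNReal.ofReal p) →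
    (∀ v n (t : ℝ), 0 ≤ t →
          P {ω | t < X (Sum.inr (Sum.inl (v, n))) ω} = ENNReal.ofReal (Real.exp (-t))) →
    (∀ v n, P {ω | X (Sum.inr (Sum.inr (v, n))) ω = 1} = 1 / 2) →
    Measurable (readOm X) ∧ Measurable redOm ∧ P.map (readOm X) = (PP p).map redOm

/-- From dense plus cores in the canonical model to the statement of the problem. -/
def BridgeStmt : Prop :=
  GoodAE → LawStmt → ∀ p : ℝ, 0 ≤ p → p ≤ 1 →
    (∀ ε : ℝ, 0 < ε → ∃ k : ℕ, ∀ R : ℕ, (lawI rC p k).real {x | 1 ∉ Core (sgn true x) R} ≤ ε) →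
    Target p

end Pool.Agent.MP_887f27_pr.H69
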